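import Mathlib

namespace Pool.Agent.P.MP_6e1b89_gt

/-- the von Neumann natural number `n` -/
noncomputable def cNat (n : ℕ) : ZFSet.{0} := ZFSet.mk (PSet.ofNat n)

/-- the set of codes of the elements of `S` -/
noncomputable def cSet {α : Type} (c : α → ZFSet.{0}) (S : Set α) : ZFSet.{0} :=
  ZFSet.range fun x : S => c x

/-- the graph of `f` restricted to `S` -/
noncomputable def cFun {α β : Type} (c : α → ZFSet.{0}) (d : β → ZFSet.{0}) (S : Set α)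
    (f : α → β) : ZFSet.{0} :=
  cSet (fun x => ZFSet.pair (c x) (d (f x))) S

/-- the Dedekind cut of a real number -/
noncomputable def cReal (x : ℝ) : ZFSet.{0} :=
  cSet (fun q : ℚ => ZFSet.pair (cNat q.num.toNat) (ZFSet.pair (cNat (-q.num).toNat) (cNat q.den)))
    {q | (q : ℝ) < x}

/-- open gamma-covers of the space `X` -/
def GammaCover (X : Set ℝ) (𝒰 : Set (Set ℝ)) : Prop :=
  (∀ U ∈ 𝒰, ∃ O, IsOpen O ∧ U = X ∩ O) ∧ X ∉ 𝒰 ∧ 𝒰.Infinite ∧ ∀ x ∈ X, {U ∈ 𝒰 | x ∉ U}.Finite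

/-- the selection principle relativised to `M` -/
def S1 (M : Set ZFSet.{0}) (X : Set ℝ) : Prop :=
  ∀ 𝒰 : ℕ → Set (Set ℝ), cFun cNat (cSet (cSet cReal)) Set.univ 𝒰 ∈ M →
    (∀ n, GammaCover X (𝒰 n)) →
    ∃ U : ℕ → Set ℝ, cFun cNat (cSet cReal) Set.univ U ∈ M ∧ (∀ n, U n ∈ 𝒰 n) ∧
      GammaCover X (Set.range U)

end Pool.Agent.P.MP_6e1b89_gt
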