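import Pool.Agent.Lib.Helper87.Club

/-!
Conditions of a finite support iteration adding dominating towers, and the order on them.
-/

open Set Filter

namespace Pool.Agent.P.MP_6e1b89_gt

/-- conditions -/
inductive Cond (I : Type) : Type
  | mk (st : I → Finset ℕ) (tw : I → Set I) (fin : {i | st i ≠ ∅ ∨ tw i ≠ ∅}.Finite)
      (ftw : ∀ i, (tw i).Finite) (n : ℕ) (idx : Fin n → I)
      (c : Fin n → Finset ℕ → ℕ → Cond I) (v : Fin n → Finset ℕ → ℕ → ℕ) : Cond I

/-- names for functions on finite sets -/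
abbrev Nm (I : Type) : Type := Finset ℕ → ℕ → Cond I × ℕ

/-- a coordinate of a condition -/
@[ext] structure Co (I : Type) : Type where
  s : Finset ℕ
  A : Set I
  Φ : Set (Nm I)
  fA : A.Finite
  fΦ : Φ.Finite

variable {I : Type}

/-- the empty coordinate -/
def Co.e : Co I := ⟨∅, ∅, ∅, finite_empty, finite_empty⟩

@[simp] theorem Co.e_s : (Co.e : Co I).s = ∅ := rfl
@[simp] theorem Co.e_A : (Co.e : Co I).A = ∅ := rfl
@[simp] theorem Co.e_Φ : (Co.e : Co I).Φ = ∅ := rfl

/-- coordinates of a condition -/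
def Cond.co : Cond I → I → Co I
  | ⟨st, tw, _, ftw, _, idx, c, v⟩, i =>
    ⟨st i, tw i, (fun l => fun t n => (c l t n, v l t n)) '' {l | idx l = i}, ftw i,
      (toFinite _).image _⟩

theorem Cond.fin (p : Cond I) : {i | p.co i ≠ Co.e}.Finite := by
  obtain ⟨st, tw, fin, ftw, n, idx, c, v⟩ := p
  refine (fin.union (finite_range idx)).subset fun i hi => ?_
  by_contra h
  simp only [mem_union, mem_ofPred_eq, mem_range, not_or, not_not, not_exists] at h
  refine hi ?_
  ext1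
  · exact h.1.1
  · exact h.1.2
  · simp only [Cond.co, Co.e_Φ, image_eq_empty]
    exact eq_empty_of_forall_notMem fun l hl => h.2 l hl

theorem exists_make (f : I → Co I) (h : {i | f i ≠ Co.e}.Finite) : ∃ p : Cond I, p.co = f := by
  have hZ : {x : I × Nm I | x.2 ∈ (f x.1).Φ}.Finite := by
    refine (h.biUnion fun i _ => (f i).fΦ.image fun φ => (i, φ)).subset fun x hx => ?_
    refine mem_biUnion (x := x.1) (fun he => ?_) ⟨x.2, hx, rfl⟩
    rw [mem_ofPred_eq, he] at hx
    exact hx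
  obtain ⟨n, g, hg⟩ := hZ.fin_embedding
  refine ⟨⟨fun i => (f i).s, fun i => (f i).A, h.subset fun i hi he => ?_, fun i => (f i).fA, n,
    fun l => (g l).1, fun l t m => ((g l).2 t m).1, fun l t m => ((g l).2 t m).2⟩, ?_⟩
  · rw [mem_ofPred_eq, he] at hi
    simp at hi
  · funext i
    ext1
    · rfl
    · rfl
    · ext φ
      simp only [Cond.co, mem_image, mem_ofPred_eq]
      constructor
      · rintro ⟨l, rfl, rfl⟩
        have : g l ∈ range g := mem_range_self l
        rw [hg] at this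
        exact this
      · intro hφ
        have : (i, φ) ∈ range g := by rw [hg]; exact hφ
        obtain ⟨l, hl⟩ := this
        exact ⟨l, by rw [hl], by rw [hl]⟩

/-- the condition with given coordinates -/
noncomputable def make (f : I → Co I) (h : {i | f i ≠ Co.e}.Finite) : Cond I :=
  (exists_make f h).choose

@[simp] theorem co_make (f : I → Co I) (h : {i | f i ≠ Co.e}.Finite) : (make f h).co = f :=
  (exists_make f h).choose_spec

theorem Cond.ind {M : Cond I → Prop}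
    (h : ∀ p : Cond I, (∀ i, ∀ φ ∈ (p.co i).Φ, ∀ t n, M (φ t n).1) → M p) (p : Cond I) : M p := by
  induction p with
  | mk st tw fin ftw n idx c v ih =>
    refine h _ fun i φ hφ t m => ?_
    obtain ⟨l, -, rfl⟩ := hφ
    exact ih l t m

/-- the trivial condition -/
noncomputable def one : Cond I := make (fun _ => Co.e) (by simp)

@[simp] theorem co_one (i : I) : (one : Cond I).co i = Co.e := by simp [one]

variable {A : Type} (ρ : I → A)

/-- the condition hereditarily avoids row `α` -/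
inductive Hered (α : A) : Cond I → Prop
  | mk (p : Cond I) (h1 : ∀ i, ρ i = α → p.co i = Co.e)
      (h2 : ∀ i, ∀ φ ∈ (p.co i).Φ, ∀ t n, Hered α (φ t n).1) : Hered α p

theorem hered_iff {α : A} {p : Cond I} : Hered ρ α p ↔ (∀ i, ρ i = α → p.co i = Co.e) ∧
    ∀ i, ∀ φ ∈ (p.co i).Φ, ∀ t n, Hered ρ α (φ t n).1 :=
  ⟨fun ⟨_, h1, h2⟩ => ⟨h1, h2⟩, fun ⟨h1, h2⟩ => ⟨_, h1, h2⟩⟩

theorem countable_not_hered (p : Cond I) : {α | ¬ Hered ρ α p}.Countable := by
  induction p using Cond.ind with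
  | h p ih =>
    refine (((p.fin.image ρ).countable).union (p.fin.countable.biUnion fun i _ =>
      (p.co i).fΦ.countable.biUnion fun φ hφ => countable_iUnion fun t => countable_iUnion fun n =>
        ih i φ hφ t n)).mono fun α hα => ?_
    rw [mem_ofPred_eq, hered_iff, not_and_or] at hα
    push Not at hα
    rcases hα with ⟨i, h1, h2⟩ | ⟨i, φ, hφ, t, n, h⟩
    · exact Or.inl ⟨i, h2, h1⟩
    · refine Or.inr (mem_biUnion (x := i) (fun he => ?_) ?_)
      · rw [he] at hφ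
        exact hφ
      · simp only [mem_iUnion]
        exact ⟨φ, hφ, t, n, h⟩

theorem hered_one (α : A) : Hered ρ α (one : Cond I) :=
  (hered_iff ρ).2 ⟨fun _ _ => by simp, fun _ _ h => by simp at h⟩

/-- end extension -/
def End (s t : Finset ℕ) : Prop := s ⊆ t ∧ ∀ j ∈ t, j ∉ s → ∀ l ∈ s, l < j

theorem End.refl (s : Finset ℕ) : End s s := ⟨fun _ h => h, fun _ h h' => absurd h h'⟩

theorem End.trans {s t u : Finset ℕ} (h1 : End s t) (h2 : End t u) : End s u := by
  refine ⟨h1.1.trans h2.1, fun j hj hs l hl => ?_⟩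
  by_cases ht : j ∈ t
  · exact h1.2 j ht hs l hl
  · exact h2.2 j hj ht l (h1.1 hl)

theorem End.filter {t u : Finset ℕ} (h : End t u) {j : ℕ} (hj : j ∈ t) :
    u.filter (· < j) = t.filter (· < j) := by
  ext l
  simp only [Finset.mem_filter]
  refine ⟨fun ⟨h1, h2⟩ => ⟨?_, h2⟩, fun ⟨h1, h2⟩ => ⟨h.1 h1, h2⟩⟩
  by_contra hl
  exact absurd (h.2 l h1 hl j hj) (by omega)

/-- predense sequences -/
def Pre (L : Cond I → Cond I → Prop) (c : ℕ → Cond I × ℕ) : Prop :=
  ∀ a, ∃ b n, L b a ∧ L b (c n).1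

/-- `q` decides that the value of the name is at most `j` -/
def Dec (L : Cond I → Cond I → Prop) (q : Cond I) (c : ℕ → Cond I × ℕ) (j : ℕ) : Prop :=
  Pre L c → ∃ n, L q (c n).1 ∧ (c n).2 ≤ j

/-- new elements obey the names -/
def ObN (L : Cond I → Cond I → Prop) (q : Cond I) (Φ : Set (Nm I)) (s t : Finset ℕ) : Prop :=
  ∀ j ∈ t, j ∉ s → ∀ φ ∈ Φ, Dec L q (φ (t.filter (· < j))) j

variable [LinearOrder I]

/-- new elements lie in the tower sets -/
def ObT (i : I) (q : Cond I) (B : Set I) (s t : Finset ℕ) : Prop :=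
  ∀ j ∈ t, j ∉ s → ∀ η ∈ B, η < i → ρ η = ρ i → j ∈ (q.co η).s

/-- the order at one coordinate -/
structure Step (i : I) (L : Cond I → Cond I → Prop) (q : Cond I) (d e : Co I) : Prop where
  en : End e.s d.s
  sA : e.A ⊆ d.A
  sΦ : e.Φ ⊆ d.Φ
  obT : ObT ρ i q e.A e.s d.s
  obN : ObN L q e.Φ e.s d.s

variable [WellFoundedLT I]

/-- the order at coordinate `i` -/
def LeAt : I → Cond I → Cond I → Prop :=
  wellFounded_lt.fix fun i IH q p =>
    Step ρ i (fun b a => ∀ i' (h : i' < i), IH i' h b a) q (q.co i) (p.co i)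

/-- the order below `i` -/
def LeB (i : I) (q p : Cond I) : Prop := ∀ i' < i, LeAt ρ i' q p

/-- the order -/
def Le (q p : Cond I) : Prop := ∀ i, LeAt ρ i q p

theorem leAt_iff {i : I} {q p : Cond I} :
    LeAt ρ i q p ↔ Step ρ i (LeB ρ i) q (q.co i) (p.co i) := by
  unfold LeAt
  rw [WellFounded.fix_eq]
  rfl

variable {ρ}

theorem Le.leB {q p : Cond I} (h : Le ρ q p) (i : I) : LeB ρ i q p := fun i' _ => h i'

theorem LeB.mono {i i' : I} {q p : Cond I} (h : LeB ρ i q p) (hi : i' ≤ i) : LeB ρ i' q p :=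
  fun j hj => h j (hj.trans_le hi)

omit [WellFoundedLT I] in
theorem Step.of_s_eq {i : I} {L : Cond I → Cond I → Prop} {q : Cond I} {d e : Co I}
    (h : d.s = e.s) (hA : e.A ⊆ d.A) (hΦ : e.Φ ⊆ d.Φ) : Step ρ i L q d e :=
  ⟨h ▸ End.refl _, hA, hΦ, fun _ h1 h2 => absurd (h ▸ h1) h2, fun _ h1 h2 => absurd (h ▸ h1) h2⟩

omit [WellFoundedLT I] in
theorem Step.of_e {i : I} {L : Cond I → Cond I → Prop} {q : Cond I} {d : Co I} :
    Step ρ i L q d Co.e :=
  ⟨⟨by simp, by simp⟩, by simp, by simp, fun _ _ _ _ h => by simp at h,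
    fun _ _ _ _ h => by simp at h⟩

theorem LeAt.of_eq {i : I} {q p : Cond I} (h : q.co i = p.co i) : LeAt ρ i q p :=
  (leAt_iff ρ).2 (Step.of_s_eq (by rw [h]) (by rw [h]) (by rw [h]))

theorem LeAt.of_e {i : I} {q p : Cond I} (h : p.co i = Co.e) : LeAt ρ i q p :=
  (leAt_iff ρ).2 (h ▸ Step.of_e)

theorem LeB.refl (i : I) (p : Cond I) : LeB ρ i p p := fun _ _ => LeAt.of_eq rfl

theorem Le.refl (p : Cond I) : Le ρ p p := fun _ => LeAt.of_eq rfl

theorem LeAt.congr_right {i : I} {q p p' : Cond I} (h : LeAt ρ i q p) (he : p'.co i = p.co i) :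
    LeAt ρ i q p' := by
  rw [leAt_iff] at h ⊢
  rwa [he]

theorem LeAt.eq_e {i : I} {q p : Cond I} (h : LeAt ρ i q p) (he : q.co i = Co.e) :
    p.co i = Co.e := by
  rw [leAt_iff, he] at h
  ext1
  · simpa using h.en.1
  · simpa using h.sA
  · simpa using h.sΦ

theorem LeB.sub {i : I} {q p : Cond I} (h : LeB ρ i q p) {η : I} (hη : η < i) :
    (p.co η).s ⊆ (q.co η).s := ((leAt_iff ρ).1 (h η hη)).en.1

theorem ObT.mono {i : I} {q r : Cond I} {B : Set I} {s t : Finset ℕ} (h : ObT ρ i q B s t)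
    (hr : LeB ρ i r q) : ObT ρ i r B s t :=
  fun j h1 h2 η h3 h4 h5 => hr.sub h4 (h j h1 h2 η h3 h4 h5)

omit [LinearOrder I] [WellFoundedLT I] in
theorem Dec.mono' {L : Cond I → Cond I → Prop} {q r : Cond I} {c : ℕ → Cond I × ℕ} {j k : ℕ}
    (h : Dec L q c j) (hr : ∀ a, L q a → L r a) (hk : j ≤ k) : Dec L r c k := fun hp =>
  let ⟨n, h1, h2⟩ := h hp; ⟨n, hr _ h1, h2.trans hk⟩

omit [LinearOrder I] [WellFoundedLT I] in
theorem ObN.mono' {L : Cond I → Cond I → Prop} {q r : Cond I} {Φ : Set (Nm I)} {s t : Finset ℕ}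
    (h : ObN L q Φ s t) (hr : ∀ a, L q a → L r a) : ObN L r Φ s t :=
  fun j h1 h2 φ h3 => (h j h1 h2 φ h3).mono' hr le_rfl

theorem LeB.trans {i : I} {r q p : Cond I} (h1 : LeB ρ i r q) (h2 : LeB ρ i q p) :
    LeB ρ i r p := by
  induction i using WellFoundedLT.induction generalizing r q p with
  | ind i ih =>
    intro i' hi'
    have a1 := (leAt_iff ρ).1 (h1 i' hi')
    have a2 := (leAt_iff ρ).1 (h2 i' hi')
    have b1 := h1.mono hi'.le
    refine (leAt_iff ρ).2 ⟨a2.en.trans a1.en, a2.sA.trans a1.sA, a2.sΦ.trans a1.sΦ, ?_, ?_⟩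
    · intro j hj hs η h3 h4 h5
      by_cases ht : j ∈ (q.co i').s
      · exact (a2.obT.mono b1) j ht hs η h3 h4 h5
      · exact a1.obT j hj ht η (a2.sA h3) h4 h5
    · intro j hj hs φ h3
      by_cases ht : j ∈ (q.co i').s
      · rw [a1.en.filter ht]
        exact (a2.obN.mono' fun a ha => ih i' hi' b1 ha) j ht hs φ h3
      · exact a1.obN j hj ht φ (a2.sΦ h3)

theorem Dec.mono {i : I} {q r : Cond I} {c : ℕ → Cond I × ℕ} {j k : ℕ}
    (h : Dec (LeB ρ i) q c j) (hr : LeB ρ i r q) (hk : j ≤ k) : Dec (LeB ρ i) r c k :=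
  h.mono' (fun _ ha => hr.trans ha) hk

theorem ObN.mono {i : I} {q r : Cond I} {Φ : Set (Nm I)} {s t : Finset ℕ}
    (h : ObN (LeB ρ i) q Φ s t) (hr : LeB ρ i r q) : ObN (LeB ρ i) r Φ s t :=
  h.mono' fun _ ha => hr.trans ha

theorem Step.mono {i : I} {q r : Cond I} {d e : Co I} (h : Step ρ i (LeB ρ i) q d e)
    (hr : LeB ρ i r q) : Step ρ i (LeB ρ i) r d e :=
  ⟨h.en, h.sA, h.sΦ, h.obT.mono hr, h.obN.mono hr⟩

theorem Le.trans [NoMaxOrder I] {r q p : Cond I} (h1 : Le ρ r q) (h2 : Le ρ q p) : Le ρ r p := by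
  intro i
  obtain ⟨i', hi'⟩ := exists_gt i
  exact (h1.leB i').trans (h2.leB i') i hi'

theorem LeB.of_eq {i : I} {q p : Cond I} (h : ∀ i' < i, q.co i' = p.co i') : LeB ρ i q p :=
  fun i' hi' => LeAt.of_eq (h i' hi')

/-- gluing -/
noncomputable def gl (i : I) (q : Cond I) (d : Co I) (r : Cond I) : Cond I :=
  make (fun j => if j < i then q.co j else if j = i then d else r.co j)
    (((q.fin.union r.fin).insert i).subset fun j hj => by
      simp only [mem_ofPred_eq, mem_insert_iff, mem_union] at hj ⊢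
      split_ifs at hj with h1 h2
      · exact Or.inr (Or.inl hj)
      · exact Or.inl h2
      · exact Or.inr (Or.inr hj))

omit [WellFoundedLT I] in
theorem gl_lt {i j : I} (q : Cond I) (d : Co I) (r : Cond I) (h : j < i) :
    (gl i q d r).co j = q.co j := by simp [gl, h]

omit [WellFoundedLT I] in
@[simp] theorem gl_self (i : I) (q : Cond I) (d : Co I) (r : Cond I) :
    (gl i q d r).co i = d := by simp [gl]

omit [WellFoundedLT I] in
theorem gl_gt {i j : I} (q : Cond I) (d : Co I) (r : Cond I) (h : i < j) :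
    (gl i q d r).co j = r.co j := by simp [gl, h.ne', h.le.not_gt]

theorem gl_leB (i : I) (q : Cond I) (d : Co I) (r : Cond I) : LeB ρ i (gl i q d r) q :=
  LeB.of_eq fun _ h => gl_lt q d r h

theorem gl_leAt {i : I} {q : Cond I} {d : Co I} (r : Cond I) {p : Cond I}
    (h : Step ρ i (LeB ρ i) q d (p.co i)) : LeAt ρ i (gl i q d r) p := by
  rw [leAt_iff, gl_self]
  exact h.mono (gl_leB i q d r)

theorem gl_le {i : I} {q : Cond I} {d : Co I} {r p : Cond I} (h1 : LeB ρ i q p)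
    (h2 : Step ρ i (LeB ρ i) q d (p.co i)) {j : I}
    (h3 : i < j → p.co j = Co.e ∨ p.co j = r.co j) : LeAt ρ j (gl i q d r) p := by
  rcases lt_trichotomy j i with h | rfl | h
  · exact (gl_leB i q d r).trans h1 j h
  · exact gl_leAt r h2
  · rcases h3 h with h4 | h4
    · exact LeAt.of_e h4
    · exact LeAt.of_eq (by rw [gl_gt _ _ _ h, h4])

omit [WellFoundedLT I] in
theorem hered_gl {α : A} {i : I} {q : Cond I} {d : Co I} {r : Cond I} (hq : Hered ρ α q)
    (hr : Hered ρ α r) (hi : ρ i ≠ α) (hd : ∀ φ ∈ d.Φ, ∀ t n, Hered ρ α (φ t n).1) :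
    Hered ρ α (gl i q d r) := by
  rw [hered_iff] at hq hr ⊢
  constructor
  · intro j hj
    rcases lt_trichotomy j i with h | rfl | h
    · rw [gl_lt _ _ _ h]; exact hq.1 j hj
    · exact absurd hj hi
    · rw [gl_gt _ _ _ h]; exact hr.1 j hj
  · intro j
    rcases lt_trichotomy j i with h | rfl | h
    · rw [gl_lt _ _ _ h]; exact hq.2 j
    · rw [gl_self]; exact hd
    · rw [gl_gt _ _ _ h]; exact hr.2 j

open Classical in
/-- amalgamation of two conditions with the same stems -/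
noncomputable def amal (p q : Cond I) : Cond I :=
  make (fun j => ⟨if p.co j = Co.e then (q.co j).s else (p.co j).s, (p.co j).A ∪ (q.co j).A,
      (p.co j).Φ ∪ (q.co j).Φ, (p.co j).fA.union (q.co j).fA, (p.co j).fΦ.union (q.co j).fΦ⟩)
    ((p.fin.union q.fin).subset fun j hj => by
      by_contra h
      simp only [mem_union, mem_ofPred_eq, not_or, not_not] at h
      refine hj ?_
      ext1 <;> simp [h.1, h.2])

theorem amal_le_left (p q : Cond I) : Le ρ (amal p q) p := by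
  intro j
  by_cases h : p.co j = Co.e
  · exact LeAt.of_e h
  · exact (leAt_iff ρ).2 (Step.of_s_eq (by simp [amal, h]) (by simp [amal]) (by simp [amal]))

theorem amal_le_right {p q : Cond I}
    (h : ∀ j, p.co j ≠ Co.e → q.co j ≠ Co.e → (p.co j).s = (q.co j).s) : Le ρ (amal p q) q := by
  intro j
  by_cases h1 : q.co j = Co.e
  · exact LeAt.of_e h1
  · refine (leAt_iff ρ).2 (Step.of_s_eq ?_ (by simp [amal]) (by simp [amal]))
    by_cases h2 : p.co j = Co.e
    · simp [amal, h2]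
    · simp [amal, h2, h j h2 h1]

open Pool.Agent.Lib.Helper87 in
/-- the countable chain condition -/
theorem ccc {T : Type} {L : Cond I → Cond I → Prop} (hL : ∀ b a, Le ρ b a → L b a)
    (ht : ∀ c b a, L c b → L b a → L c a) (D : Set (Cond I × T))
    (hD : ∀ a, ∃ b, ∃ d ∈ D, L b a ∧ L b d.1) :
    ∃ f : ℕ → Cond I × T, (∀ n, f n ∈ D) ∧ ∀ a, ∃ b n, L b a ∧ L b (f n).1 := by
  classical
  obtain ⟨w, h1, h2, h3, h4, h5⟩ := ((ev_of_club (P := Unit) club_countable).and
    ((ev_all_finset fun S : Finset (I × Finset ℕ) => ev_skolem fun x : Cond I × Cond I × T =>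
      x.2 ∈ D ∧ L x.1 x.2.1 ∧ ∀ y ∈ S, (x.1.co y.1).s = y.2).and
    ((ev_all fun x : Cond I × Cond I × T => ev_countable_set x.1.fin.countable).and
    ((ev_fun₂ fun (i : I) (s : Finset ℕ) => (i, s)).and (ev_ctype (Finset ℕ)))))).exists
  have key : ∀ a, ∃ b, ∃ x : Cond I × Cond I × T, w.In x ∧ x.2 ∈ D ∧ L b a ∧ L b x.2.1 := by
    intro a
    obtain ⟨b, d, hd, hb1, hb2⟩ := hD a
    obtain ⟨x, x1, x2, x3, x4⟩ := h2
      ((b.fin.toFinset.filter fun i => w.In i).image fun i => (i, (b.co i).s))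
      (by
        intro y hy
        obtain ⟨i, hi, rfl⟩ := Finset.mem_image.1 hy
        exact h4 i (Finset.mem_filter.1 hi).2 _ (h5 _))
      ⟨(b, d), hd, hb2, by
        intro y hy
        obtain ⟨i, hi, rfl⟩ := Finset.mem_image.1 hy
        rfl⟩
    refine ⟨amal b x.1, x, x1, x2, ht _ _ _ (hL _ _ (amal_le_left _ _)) hb1,
      ht _ _ _ (hL _ _ (amal_le_right fun j hj1 hj2 => ?_)) x3⟩
    exact (x4 (j, (b.co j).s) (Finset.mem_image.2 ⟨j, Finset.mem_filter.2
      ⟨by simpa using hj1, h3 x x1 j hj2⟩, rfl⟩)).symm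
  have hc : {x : Cond I × Cond I × T | w.In x ∧ x.2 ∈ D}.Countable :=
    (countable_emb_mem h1).mono fun x hx => hx.1
  obtain ⟨f, hf⟩ := hc.exists_eq_range (by
    obtain ⟨b, x, x1, x2, -⟩ := key one
    exact ⟨x, x1, x2⟩)
  refine ⟨fun n => (f n).2, fun n => ?_, fun a => ?_⟩
  · have : f n ∈ range f := mem_range_self n
    rw [← hf] at this
    exact this.2
  · obtain ⟨b, x, x1, x2, x3, x4⟩ := key a
    have : x ∈ range f := by rw [← hf]; exact ⟨x1, x2⟩
    obtain ⟨n, rfl⟩ := this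
    exact ⟨b, n, x3, x4⟩

end Pool.Agent.P.MP_6e1b89_gt
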