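import Pool.Agent.Lib.Helper87.ZFC
import Pool.Agent.P.MP_6e1b89_gt.Defs

/-!
The sigma-algebra of forcing-definable sets of worlds, and named sets.
-/

open Set Filter Pool.Agent.Lib.Helper87

namespace Pool.Agent.P.MP_6e1b89_gt

universe v

theorem mem_cSet {α : Type} {c : α → ZFSet.{0}} {S : Set α} {z : ZFSet} :
    z ∈ cSet c S ↔ ∃ x ∈ S, c x = z := by
  simp [cSet]

theorem cSet_inj {α : Type} {c : α → ZFSet.{0}} (hc : Function.Injective c) :
    Function.Injective (cSet c) := by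
  have key : ∀ S T : Set α, cSet c S = cSet c T → S ⊆ T := fun S T h x hx => by
    have : c x ∈ cSet c T := h ▸ mem_cSet.2 ⟨x, hx, rfl⟩
    obtain ⟨y, hy, e⟩ := mem_cSet.1 this
    exact hc e ▸ hy
  exact fun S T h => Subset.antisymm (key S T h) (key T S h.symm)

theorem mem_cSet_iff {α : Type} {c : α → ZFSet.{0}} (hc : Function.Injective c) {S : Set α}
    {x : α} : c x ∈ cSet c S ↔ x ∈ S := by
  rw [mem_cSet]
  exact ⟨fun ⟨y, hy, e⟩ => hc e ▸ hy, fun h => ⟨x, h, rfl⟩⟩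

theorem cNat_mem {m n : ℕ} (h : m < n) : cNat m ∈ cNat n := by
  induction n with
  | zero => omega
  | succ n ih =>
    have : cNat (n + 1) = insert (cNat n) (cNat n) := rfl
    rw [this, ZFSet.mem_insert_iff]
    rcases Nat.lt_succ_iff_lt_or_eq.1 h with h | rfl
    exacts [Or.inr (ih h), Or.inl rfl]

theorem cNat_inj : Function.Injective cNat := by
  intro m n h
  rcases lt_trichotomy m n with h1 | h1 | h1
  · exact absurd (h ▸ cNat_mem h1) (ZFSet.mem_irrefl _)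
  · exact h1
  · exact absurd (h ▸ cNat_mem h1) (ZFSet.mem_irrefl _)

theorem cReal_inj : Function.Injective cReal := by
  intro x y h
  have := cSet_inj (fun q r e => by
    simp only [ZFSet.pair_inj, cNat_inj.eq_iff] at e
    exact Rat.ext (by omega) e.2.2) h
  refine le_antisymm (le_of_forall_rat_lt_imp_le fun q hq => ?_)
    (le_of_forall_rat_lt_imp_le fun q hq => ?_)
  · exact le_of_lt (this.subset hq)
  · exact le_of_lt (this.superset hq)

/-- function application -/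
noncomputable def app (f a : ZFSet.{0}) : ZFSet.{0} :=
  ZFSet.sep (fun z => ∃ y ∈ f.sUnion.sUnion, a.pair y ∈ f ∧ z ∈ y) f.sUnion.sUnion.sUnion

theorem app_cFun {α β : Type} {c : α → ZFSet.{0}} (hc : Function.Injective c)
    {d : β → ZFSet.{0}} {S : Set α} {f : α → β} {x : α} (hx : x ∈ S) :
    app (cFun c d S f) (c x) = d (f x) := by
  have h1 : (c x).pair (d (f x)) ∈ cFun c d S f := mem_cSet.2 ⟨x, hx, rfl⟩
  have h2 : d (f x) ∈ (cFun c d S f).sUnion.sUnion :=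
    ZFSet.mem_sUnion.2 ⟨{c x, d (f x)}, ZFSet.mem_sUnion.2 ⟨_, h1, by simp [ZFSet.pair]⟩, by simp⟩
  ext z
  rw [app, ZFSet.mem_sep]
  constructor
  · rintro ⟨-, y, -, h3, h4⟩
    obtain ⟨x', -, e⟩ := mem_cSet.1 h3
    rw [ZFSet.pair_inj] at e
    rwa [← hc e.1, e.2]
  · exact fun hz => ⟨ZFSet.mem_sUnion.2 ⟨_, h2, hz⟩, _, h2, h1, hz⟩

variable {P : Type} [Preorder P]

/-- forcing-definable properties of worlds -/
def Dfn (Φ : World P → Prop) : Prop :=
  ∃ D : P → Prop, (∀ p q, q ≤ p → D p → D q) ∧ ∀ᶠ w in gen P, Φ w ↔ w.Frc D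

theorem Dfn.ex {T : Type v} [Small.{1} T] {Φ : T → World P → Prop} (h : ∀ a, Dfn (Φ a)) :
    Dfn fun w => ∃ a, w.In a ∧ Φ a w := by
  choose D h1 h2 using h
  refine ⟨fun p => ∃ a, D a p, fun p q h ⟨a, ha⟩ => ⟨a, h1 a p q h ha⟩, ?_⟩
  filter_upwards [ev_all h2, ev_frc_ex fun p a => D a p] with w a1 a2
  rw [a2]
  exact ⟨fun ⟨a, b1, b2⟩ => ⟨a, b1, (a1 a b1).1 b2⟩, fun ⟨a, b1, b2⟩ => ⟨a, b1, (a1 a b1).2 b2⟩⟩

theorem Dfn.congr {Φ Ψ : World P → Prop} (h : Dfn Φ) (he : ∀ᶠ w in gen P, Ψ w ↔ Φ w) : Dfn Ψ := by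
  obtain ⟨D, h1, h2⟩ := h
  refine ⟨D, h1, ?_⟩
  filter_upwards [he, h2] with w a1 a2 using a1.trans a2

instance worldMS : MeasurableSpace (World P) where
  MeasurableSet' S := Dfn fun w => w ∈ S
  measurableSet_empty := ⟨fun _ => False, fun _ _ _ h => h,
    Eventually.of_forall fun _ => ⟨fun h => h.elim, fun ⟨_, _, h⟩ => h⟩⟩
  measurableSet_compl S := fun ⟨D, h1, h2⟩ =>
    ⟨fun p => ∀ q ≤ p, ¬ D q, fun p q h hp r hr => hp r (hr.trans h), by
      filter_upwards [h2, ev_frc_not D h1] with w a1 a2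
      rw [a2, ← a1, mem_compl_iff]⟩
  measurableSet_iUnion f hf := (Dfn.ex hf).congr (by
    filter_upwards [ev_ctype ℕ] with w hw
    simp [hw])

theorem meas_iff {Φ : World P → Prop} : Measurable Φ ↔ Dfn Φ :=
  measurableSet_setOfPred.symm

theorem meas_congr {Φ Ψ : World P → Prop} (h : Measurable Φ) (he : ∀ᶠ w in gen P, Ψ w ↔ Φ w) :
    Measurable Ψ := meas_iff.2 ((meas_iff.1 h).congr he)

theorem meas_ex {T : Type v} [Small.{1} T] {Φ : T → World P → Prop} (h : ∀ a, Measurable (Φ a)) :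
    Measurable fun w : World P => ∃ a, w.In a ∧ Φ a w :=
  meas_iff.2 (Dfn.ex fun a => meas_iff.1 (h a))

theorem meas_all {T : Type v} [Small.{1} T] {Φ : T → World P → Prop} (h : ∀ a, Measurable (Φ a)) :
    Measurable fun w : World P => ∀ a, w.In a → Φ a w := by
  refine meas_congr (meas_ex fun a => (h a).not).not (Eventually.of_forall fun w => ?_)
  push Not
  rfl

theorem meas_frc {D : P → Prop} (h : ∀ p q, q ≤ p → D p → D q) :
    Measurable fun w : World P => w.Frc D :=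
  meas_iff.2 ⟨D, h, Eventually.of_forall fun _ => Iff.rfl⟩

theorem meas_hit (b : Set P) : Measurable fun w : World P => w.Hit b :=
  meas_frc fun _ _ h h' => h'.mono h

theorem meas_idx {X T : Type*} [MeasurableSpace X] [MeasurableSpace T] [Countable T]
    [MeasurableSingletonClass T] {Y : Type*} [MeasurableSpace Y] {f : T → X → Y}
    (hf : ∀ k, Measurable (f k)) {K : X → T} (hK : Measurable K) :
    Measurable fun x => f (K x) x :=
  (measurable_from_prod_countable_left (f := fun z : X × T => f z.2 z.1) hf).comp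
    (measurable_id.prodMk hK)

theorem meas_sInf {X : Type*} [MeasurableSpace X] {Φ : ℕ → X → Prop}
    (h : ∀ k, Measurable (Φ k)) : Measurable fun x => sInf {k | Φ k x} := by
  refine measurable_to_countable' fun j => ?_
  have : (fun x => sInf {k | Φ k x}) ⁻¹' {j} =
      {x | (Φ j x ∧ ∀ l, l < j → ¬ Φ l x) ∨ (j = 0 ∧ ∀ l, ¬ Φ l x)} := by
    ext x
    simp only [mem_preimage, mem_singleton_iff, mem_ofPred_eq]
    constructor
    · rintro rfl
      rcases eq_empty_or_nonempty {k | Φ k x} with he | hne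
      · exact Or.inr ⟨by rw [he, Nat.sInf_empty], eq_empty_iff_forall_notMem.1 he⟩
      · exact Or.inl ⟨Nat.sInf_mem hne, fun l hl => Nat.notMem_of_lt_sInf hl⟩
    · rintro (⟨h1, h2⟩ | ⟨rfl, h2⟩)
      · refine le_antisymm (Nat.sInf_le h1) ?_
        by_contra h3
        exact h2 _ (not_le.1 h3) (Nat.sInf_mem (s := {k | Φ k x}) ⟨j, h1⟩)
      · rw [Nat.sInf_eq_zero]
        exact Or.inr (eq_empty_of_forall_notMem h2)
  rw [this, measurableSet_setOfPred]
  exact ((h j).and (Measurable.forall fun l => measurable_const.imp (h l).not)).or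
    (measurable_const.and (Measurable.forall fun l => (h l).not))

/-- sets depending on the world which have a name -/
def Named (X : World P → ZFSet.{0}) : Prop := ∃ σ : Name P, ∀ᶠ w in gen P, w.val σ = X w

theorem named_val (σ : Name P) : Named fun w => w.val σ := ⟨σ, Eventually.of_forall fun _ => rfl⟩

theorem Named.congr {X Y : World P → ZFSet} (h : Named X) (he : ∀ᶠ w in gen P, X w = Y w) :
    Named Y := by
  obtain ⟨σ, h⟩ := h
  refine ⟨σ, ?_⟩
  filter_upwards [he, h] with w a1 a2 using a2.trans a1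

theorem Named.mem_M {X : World P → ZFSet} (h : Named X) : ∀ᶠ w in gen P, X w ∈ w.M := by
  obtain ⟨σ, h⟩ := h
  filter_upwards [h, ev_val_mem_M σ] with w a1 a2 using a1 ▸ a2

theorem Named.mem {X Y : World P → ZFSet} (hX : Named X) (hY : Named Y) :
    Measurable fun w => X w ∈ Y w := by
  obtain ⟨σ, h1⟩ := hX
  obtain ⟨τ, h2⟩ := hY
  refine meas_congr (meas_frc (D := FMem σ τ) fun _ _ h h' => h'.mono h) ?_
  filter_upwards [h1, h2, ev_val_mem σ τ] with w a1 a2 a3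
  rw [← a1, ← a2, a3]

theorem Named.eq {X Y : World P → ZFSet} (hX : Named X) (hY : Named Y) :
    Measurable fun w => X w = Y w := by
  obtain ⟨σ, h1⟩ := hX
  obtain ⟨τ, h2⟩ := hY
  refine meas_congr (meas_frc (D := FEq σ τ) fun _ _ h h' => h'.mono h) ?_
  filter_upwards [h1, h2, ev_val_eq σ τ] with w a1 a2 a3
  rw [← a1, ← a2, a3]

theorem named_nat (n : ℕ) : Named fun _ : World P => cNat n :=
  ⟨natName n, ev_val_natName.mono fun _ h => h n⟩

theorem Named.pair {X Y : World P → ZFSet} (hX : Named X) (hY : Named Y) :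
    Named fun w => (X w).pair (Y w) := by
  obtain ⟨σ, h1⟩ := hX
  obtain ⟨τ, h2⟩ := hY
  refine ⟨opair σ τ, ?_⟩
  filter_upwards [h1, h2, ev_val_opair] with w a1 a2 a3
  rw [a3, a1, a2]

/-- comprehension -/
theorem named_of_mem {T : Type} {X : T → World P → ZFSet} (hX : ∀ a, Named (X a))
    {Φ : T → World P → Prop} (hΦ : ∀ a, Measurable (Φ a)) {Y : World P → ZFSet}
    (hY : ∀ᶠ w in gen P, ∀ z, z ∈ Y w ↔ ∃ a, w.In a ∧ Φ a w ∧ X a w = z) : Named Y := by
  choose τ hτ using hX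
  choose D h1 h2 using fun a => meas_iff.1 (hΦ a)
  refine ⟨⟨T, τ, fun a => {p | D a p}⟩, ?_⟩
  filter_upwards [hY, ev_all hτ, ev_all h2] with w a1 a2 a3
  ext z
  rw [w.mem_val_mk, a1]
  refine exists_congr fun a => and_congr_right fun ha => ?_
  rw [w.hit_iff (h1 a), a3 a ha, a2 a ha]

theorem named_cSet {α T : Type} {c : World P → α → ZFSet} {f : T → World P → α}
    (hf : ∀ a, Named fun w => c w (f a w)) {Φ : T → World P → Prop} (hΦ : ∀ a, Measurable (Φ a)) :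
    Named fun w => cSet (c w) {x | ∃ a, w.In a ∧ Φ a w ∧ f a w = x} := by
  refine named_of_mem hf hΦ (Eventually.of_forall fun w z => ?_)
  rw [mem_cSet]
  constructor
  · rintro ⟨_, ⟨a, h1, h2, rfl⟩, rfl⟩
    exact ⟨a, h1, h2, rfl⟩
  · rintro ⟨a, h1, h2, rfl⟩
    exact ⟨_, ⟨a, h1, h2, rfl⟩, rfl⟩

theorem named_cSet_c {T : Type} [Countable T] {c : World P → T → ZFSet}
    (hf : ∀ a, Named fun w => c w a) {Φ : T → World P → Prop} (hΦ : ∀ a, Measurable (Φ a)) :
    Named fun w => cSet (c w) {a | Φ a w} := by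
  refine named_of_mem hf hΦ ?_
  filter_upwards [ev_ctype T] with w hw z
  simp [mem_cSet, hw]

theorem named_cFun {β : Type} {d : β → ZFSet} {f : World P → ℕ → β}
    (hf : ∀ n, Named fun w => d (f w n)) : Named fun w => cFun cNat d univ (f w) :=
  named_cSet_c (c := fun w n => (cNat n).pair (d (f w n))) (fun n => (named_nat n).pair (hf n))
    (Φ := fun _ _ => True) fun _ => measurable_const

theorem named_real {x : World P → ℝ} (hx : Measurable x) : Named fun w => cReal (x w) :=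
  named_cSet_c (fun _ => (named_nat _).pair ((named_nat _).pair (named_nat _)))
    (Φ := fun (q : ℚ) w => (q : ℝ) < x w) fun _ => measurable_const.lt hx

/-- mixing -/
theorem named_mix {T : Type} {X : T → World P → ZFSet} (hX : ∀ a, Named (X a))
    {Φ : T → World P → Prop} (hΦ : ∀ a, Measurable (Φ a)) :
    ∃ Y, Named Y ∧ ∀ᶠ w in gen P, ∀ a, w.In a → Φ a w → (∀ b, w.In b → Φ b w → b = a) →
      Y w = X a w := by
  choose τ hτ using hX
  choose D h1 h2 using fun a => meas_iff.1 (hΦ a)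
  refine ⟨_, named_val ⟨Σ a, (τ a).I, fun x => (τ x.1).A x.2,
    fun x => {p | Below p ((τ x.1).c x.2) ∧ D x.1 p}⟩, ?_⟩
  filter_upwards [ev_generic, ev_all hτ, ev_all h2, ev_in_sigma fun a => (τ a).I]
    with w hw a1 a2 a3 a ha h3 h4
  ext z
  rw [w.mem_val_mk, ← a1 a ha, w.mem_val]
  constructor
  · rintro ⟨⟨b, i⟩, b1, b2, rfl⟩
    rw [hw.hit_and' (h1 _)] at b2
    obtain ⟨b3, b4⟩ := (a3 _).1 b1
    obtain rfl : b = a := h4 b b3 ((a2 b b3).2 b2.2)
    exact ⟨i, b4, b2.1, rfl⟩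
  · rintro ⟨i, b1, b2, rfl⟩
    exact ⟨⟨a, i⟩, (a3 _).2 ⟨ha, b1⟩, (hw.hit_and' (h1 _)).2 ⟨b2, (a2 a ha).1 h3⟩, rfl⟩

theorem named_idx {X : ℕ → World P → ZFSet} (hX : ∀ k, Named (X k)) {K : World P → ℕ}
    (hK : Measurable K) : Named fun w => X (K w) w := by
  obtain ⟨Y, h1, h2⟩ := named_mix hX (Φ := fun k w => K w = k) fun k => hK.eq_const k
  refine h1.congr ?_
  filter_upwards [h2, ev_ctype ℕ] with w a1 a2
  exact a1 _ (a2 _) rfl fun b _ h => h.symm

theorem named_natFun {g : World P → ℕ → ℕ} (hg : ∀ n, Measurable fun w => g w n) :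
    Named fun w => cFun cNat cNat univ (g w) :=
  named_cFun fun n => named_idx (X := fun k _ => cNat k) named_nat (hg n)

theorem Named.bex {Y : World P → ZFSet} (hY : Named Y) {Φ : ZFSet → World P → Prop}
    (hΦ : ∀ τ : Name P, Measurable fun w => Φ (w.val τ) w) :
    Measurable fun w => ∃ x ∈ Y w, Φ x w := by
  obtain ⟨σ, h⟩ := hY
  refine meas_congr (meas_ex fun i : σ.I => (meas_hit (σ.c i)).and (hΦ (σ.A i))) ?_
  filter_upwards [h] with w hw
  rw [← hw]
  constructor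
  · rintro ⟨x, h1, h2⟩
    obtain ⟨i, a1, a2, rfl⟩ := (w.mem_val σ x).1 h1
    exact ⟨i, a1, a2, h2⟩
  · rintro ⟨i, a1, a2, a3⟩
    exact ⟨_, (w.mem_val σ _).2 ⟨i, a1, a2, rfl⟩, a3⟩

theorem Named.sep {Y : World P → ZFSet} (hY : Named Y) {Φ : ZFSet → World P → Prop}
    (hΦ : ∀ τ : Name P, Measurable fun w => Φ (w.val τ) w) :
    Named fun w => ZFSet.sep (fun x => Φ x w) (Y w) := by
  obtain ⟨σ, h⟩ := hY
  refine named_of_mem (fun i : σ.I => named_val (σ.A i))
    (fun i => (meas_hit (σ.c i)).and (hΦ (σ.A i))) ?_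
  filter_upwards [h] with w hw z
  rw [ZFSet.mem_sep, ← hw, w.mem_val]
  constructor
  · rintro ⟨⟨i, a1, a2, rfl⟩, h2⟩
    exact ⟨i, a1, ⟨a2, h2⟩, rfl⟩
  · rintro ⟨i, a1, ⟨a2, a3⟩, rfl⟩
    exact ⟨⟨i, a1, a2, rfl⟩, a3⟩

theorem Named.sUnion {Y : World P → ZFSet} (hY : Named Y) : Named fun w => (Y w).sUnion := by
  obtain ⟨σ, h⟩ := hY
  refine named_of_mem (fun x : Σ i : σ.I, (σ.A i).I => named_val ((σ.A x.1).A x.2))
    (fun x => (meas_hit (σ.c x.1)).and (meas_hit ((σ.A x.1).c x.2))) ?_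
  filter_upwards [h, ev_in_sigma fun i => (σ.A i).I] with w hw h1 z
  rw [ZFSet.mem_sUnion, ← hw]
  constructor
  · rintro ⟨y, hy, hz⟩
    obtain ⟨i, a1, a2, rfl⟩ := (w.mem_val _ _).1 hy
    obtain ⟨j, a3, a4, rfl⟩ := (w.mem_val _ _).1 hz
    exact ⟨⟨i, j⟩, (h1 _).2 ⟨a1, a3⟩, ⟨a2, a4⟩, rfl⟩
  · rintro ⟨⟨i, j⟩, a1, ⟨a2, a4⟩, rfl⟩
    exact ⟨_, (w.mem_val _ _).2 ⟨i, ((h1 _).1 a1).1, a2, rfl⟩,
      (w.mem_val _ _).2 ⟨j, ((h1 _).1 a1).2, a4, rfl⟩⟩

theorem Named.app {f a : World P → ZFSet} (hf : Named f) (ha : Named a) :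
    Named fun w => app (f w) (a w) :=
  hf.sUnion.sUnion.sUnion.sep
    (Φ := fun z w => ∃ y ∈ (f w).sUnion.sUnion, (a w).pair y ∈ f w ∧ z ∈ y) fun τ =>
    hf.sUnion.sUnion.bex (Φ := fun y w => (a w).pair y ∈ f w ∧ w.val τ ∈ y) fun τ' =>
      ((ha.pair (named_val τ')).mem hf).and ((named_val τ).mem (named_val τ'))

/-- choice -/
theorem Named.choose {Y : World P → ZFSet} (hY : Named Y) {Φ : ZFSet → World P → Prop}
    (hΦ : ∀ τ : Name P, Measurable fun w => Φ (w.val τ) w) :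
    ∃ ν : Name P, ∀ᶠ w in gen P, (∃ x ∈ Y w, Φ x w) → w.val ν ∈ Y w ∧ Φ (w.val ν) w := by
  obtain ⟨σ, h⟩ := hY
  have hm : ∀ i : σ.I, Measurable fun w : World P => w.Hit (σ.c i) ∧ Φ (w.val (σ.A i)) w :=
    fun i => (meas_hit (σ.c i)).and (hΦ (σ.A i))
  obtain ⟨X, ⟨ν, h1⟩, h2⟩ := named_mix (fun i : σ.I => named_val (σ.A i))
    (fun i => (hm i).and (meas_all fun j => (measurable_const (a := WellOrderingRel j i)).imp
      (hm j).not))
  refine ⟨ν, ?_⟩
  filter_upwards [h, h1, h2] with w a1 a2 a3 ⟨x, b1, b2⟩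
  rw [← a1] at b1 ⊢
  obtain ⟨i, c1, c2, rfl⟩ := (w.mem_val σ x).1 b1
  obtain ⟨j, ⟨d1, d2⟩, hmin⟩ := (IsWellFounded.wf (r := WellOrderingRel)).has_min
    {j : σ.I | w.In j ∧ w.Hit (σ.c j) ∧ Φ (w.val (σ.A j)) w} ⟨i, c1, c2, b2⟩
  rw [a2, a3 j d1 ⟨d2, fun l e1 e2 e3 => hmin l ⟨e1, e3⟩ e2⟩]
  · exact ⟨(w.mem_val σ _).2 ⟨j, d1, d2.1, rfl⟩, d2.2⟩
  · rintro l e1 ⟨e2, e3⟩
    rcases trichotomous_of WellOrderingRel l j with h | h | h
    · exact absurd h (hmin l ⟨e1, e2⟩)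
    · exact h
    · exact absurd d2 (e3 j d1 h)

/-- injective enumerations -/
theorem Named.enum {Y : World P → ZFSet} (hY : Named Y) :
    ∃ ν : ℕ → Name P, ∀ᶠ w in gen P, {x | x ∈ Y w}.Infinite →
      (∀ k, w.val (ν k) ∈ Y w) ∧ Function.Injective fun k => w.val (ν k) := by
  have h : ∀ L : List (Name P), ∃ ν : Name P, ∀ᶠ w in gen P,
      (∃ x ∈ Y w, ∀ τ ∈ L, x ≠ w.val τ) → w.val ν ∈ Y w ∧ ∀ τ ∈ L, w.val ν ≠ w.val τ := by
    intro L
    refine hY.choose (Φ := fun x w => ∀ τ ∈ L, x ≠ w.val τ) fun σ => ?_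
    induction L with
    | nil => simp
    | cons τ L ih =>
      simp only [List.forall_mem_cons]
      exact ((named_val σ).eq (named_val τ)).not.and ih
  choose step hstep using h
  let L : ℕ → List (Name P) := fun k => Nat.rec [] (fun _ l => step l :: l) k
  have hL : ∀ k l, l < k → step (L l) ∈ L k := by
    intro k
    induction k with
    | zero => intro l hl; omega
    | succ k ih =>
      intro l hl
      change _ ∈ step (L k) :: L k
      rcases Nat.lt_succ_iff_lt_or_eq.1 hl with h | rfl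
      exacts [List.mem_cons_of_mem _ (ih l h), List.mem_cons_self]
  refine ⟨fun k => step (L k), ?_⟩
  filter_upwards [ev_call fun k => hstep (L k)] with w hw hinf
  have key : ∀ k, w.val (step (L k)) ∈ Y w ∧ ∀ τ ∈ L k, w.val (step (L k)) ≠ w.val τ := by
    intro k
    obtain ⟨x, h1, h2⟩ := hinf.exists_notMem_finite ((List.finite_toSet (L k)).image w.val)
    exact hw k ⟨x, h1, fun τ hτ e => h2 ⟨τ, hτ, e.symm⟩⟩
  refine ⟨fun k => (key k).1, fun k l e => ?_⟩
  rcases lt_trichotomy k l with h | h | h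
  · exact absurd e.symm ((key l).2 _ (hL l k h))
  · exact h
  · exact absurd e ((key k).2 _ (hL k l h))

end Pool.Agent.P.MP_6e1b89_gt
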