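import Pool.Agent.P.MP_6e1b89_gt.Key
import Pool.Agent.P.MP_6e1b89_gt.Meas

/-!
Properties of the generic towers.
-/

open Set Filter Pool.Agent.Lib.Helper87 Cardinal

namespace Pool.Agent.P.MP_6e1b89_gt

/-- the index set of the iteration -/
abbrev II : Type := (Order.succ 𝔠 : Cardinal.{0}).ord.ToType

theorem mk_II : #II = Order.succ 𝔠 := mk_ord_toType _

theorem mk_Iic_le (i : II) : #(Iic i) ≤ 𝔠 := by
  rw [← Order.lt_succ_iff]
  refine (mk_Iic_lt i (by simp) ?_).trans_eq mk_II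
  rw [mk_II]
  exact aleph0_le_continuum.trans (Order.le_succ _)

theorem bdd {T : Type} (hT : #T ≤ 𝔠) (f : T → II) : ∃ i, ∀ x, f x < i := by
  by_contra h
  push Not at h
  have h1 : (⋃ x, Iic (f x)) = Set.univ := eq_univ_of_forall fun i => mem_iUnion.2 (h i)
  have h2 := mk_iUnion_le fun x => Iic (f x)
  rw [h1, mk_univ, mk_II] at h2
  have h3 : #T * ⨆ x, #(Iic (f x)) ≤ 𝔠 * 𝔠 :=
    mul_le_mul' hT (ciSup_le' fun x => mk_Iic_le _)
  rw [continuum_mul_self] at h3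
  exact absurd (h2.trans h3) (Order.lt_succ _).not_ge

theorem bdd_c {T : Type} [Countable T] (f : T → II) : ∃ i, ∀ x, f x < i :=
  bdd (mk_le_aleph0.trans aleph0_le_continuum) f

theorem bdd_lt (i0 : II) (f : II → II) : ∃ i, ∀ x < i0, f x < i := by
  obtain ⟨i, hi⟩ := bdd (mk_Iic_le i0) fun x : Iic i0 => f x
  exact ⟨i, fun x hx => hi ⟨x, hx.le⟩⟩

instance : NoMaxOrder II := ⟨fun i => let ⟨j, hj⟩ := bdd_c fun _ : Unit => i; ⟨j, hj ()⟩⟩

theorem exists_rho : ∃ ρ : II → ℝ, ∀ α i, ∃ j, i ≤ j ∧ ρ j = α := by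
  have : #II = #(II × ℝ) := by
    rw [mk_prod, lift_id, lift_id, mk_real, mk_II, mul_eq_left]
    · exact aleph0_le_continuum.trans (Order.le_succ _)
    · exact Order.le_succ _
    · exact continuum_ne_zero
  obtain ⟨e⟩ := Cardinal.eq.1 this
  refine ⟨fun i => (e i).2, fun α i => ?_⟩
  by_contra h
  push Not at h
  have h1 : #II ≤ #(Iic i) := mk_le_of_injective
    (f := fun j => ⟨e.symm (j, α), by
      by_contra h2
      exact h _ (not_le.1 h2).le (by simp)⟩) fun j k hjk => by simpa using hjk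
  rw [mk_II] at h1
  exact absurd (h1.trans (mk_Iic_le i)) (Order.lt_succ _).not_ge

/-- the row of a coordinate -/
noncomputable def rho : II → ℝ := exists_rho.choose

theorem rho_cof (α : ℝ) (i : II) : ∃ j, i ≤ j ∧ rho j = α := exists_rho.choose_spec α i

/-- the forcing -/
def PP : Type := Cond II

instance : Preorder PP where
  le := Le rho
  le_refl := Le.refl
  le_trans _ _ _ := Le.trans

instance : Nonempty PP := ⟨(one : Cond II)⟩

theorem pp_le {p q : PP} : p ≤ q ↔ Le rho p q := Iff.rfl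

theorem supp_bdd {T : Type} [Countable T] (f : T → Cond II) :
    ∃ i, ∀ x, ∀ j, i ≤ j → (f x).co j = Co.e := by
  have h : (⋃ x, {j | (f x).co j ≠ Co.e}).Countable :=
    countable_iUnion fun x => (f x).fin.countable
  have := h.to_subtype
  obtain ⟨i, hi⟩ := bdd_c fun j : (⋃ x, {j | (f x).co j ≠ Co.e} : Set II) => j.1
  refine ⟨i, fun x j hj => ?_⟩
  by_contra h2
  exact absurd (hi ⟨j, mem_iUnion.2 ⟨x, h2⟩⟩) hj.not_gt

theorem le_of_leB {i : II} {q p : Cond II} (h : LeB rho i q p) (hp : ∀ j, i ≤ j → p.co j = Co.e) :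
    Le rho q p := fun j => (lt_or_ge j i).elim (h j) fun hj => LeAt.of_e (hp j hj)

theorem Le.sub {q p : Cond II} (h : Le rho q p) (i : II) : (p.co i).s ⊆ (q.co i).s :=
  ((leAt_iff rho).1 (h i)).en.1

theorem keyLe (α : ℝ) (p : Cond II) (R : Set (Cond II)) (F : Set II) (hR : R.Finite)
    (hF : F.Finite) (hR' : ∀ r ∈ R, Hered rho α r ∧ Le rho p r) (hF' : ∀ η ∈ F, rho η = α) :
    ∃ r', Hered rho α r' ∧ (∀ r ∈ R, Le rho r' r) ∧ ∃ n, ∀ k ≥ n, ∀ r'', Hered rho α r'' →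
      Le rho r'' r' → ∃ q, Le rho q p ∧ Le rho q r'' ∧ InF F q k := by
  obtain ⟨i1, h1⟩ := supp_bdd fun _ : Unit => p
  have := hF.countable.to_subtype
  obtain ⟨i2, h2⟩ := bdd_c fun η : F => η.1
  have h3 : ∀ j, max i1 i2 ≤ j → p.co j = Co.e := fun j hj => h1 () j ((le_max_left _ _).trans hj)
  have h4 : ∀ η ∈ F, η < max i1 i2 := fun η hη => (h2 ⟨η, hη⟩).trans_le (le_max_right _ _)
  obtain ⟨r', a1, a2, n, a3⟩ := keyC (ρ := rho) α (max i1 i2) p R F hR hF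
    (fun r hr => ⟨(hR' r hr).1, (hR' r hr).2.leB _⟩) fun η hη => ⟨h4 η hη, hF' η hη⟩
  refine ⟨r', a1, fun r hr => le_of_leB (a2 r hr) fun j hj => ((hR' r hr).2 j).eq_e (h3 j hj), n,
    fun k hk r'' b1 b2 => ?_⟩
  obtain ⟨q, c1, c2, c3⟩ := a3 k hk r'' b1 (b2.leB _)
  refine ⟨gl (max i1 i2) q (r''.co (max i1 i2)) r'',
    le_of_leB ((gl_leB _ _ _ _).trans c1) h3, fun j => ?_, fun η hη => ?_⟩
  · refine gl_le c2 ?_ fun _ => Or.inr rfl
    exact Step.of_s_eq rfl Subset.rfl Subset.rfl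
  · rw [gl_lt _ _ _ (h4 η hη)]
    exact c3 η hη

theorem cccLe {T : Type} (D : Set (Cond II × T)) (hD : ∀ a, ∃ d ∈ D, Le rho d.1 a) :
    ∃ f : ℕ → Cond II × T, (∀ n, f n ∈ D) ∧ ∀ a, ∃ b n, Le rho b a ∧ Le rho b (f n).1 :=
  ccc (ρ := rho) (fun _ _ h => h) (fun _ _ _ h1 h2 => h1.trans h2) D fun a =>
    let ⟨d, h1, h2⟩ := hD a; ⟨d.1, d, h1, h2, Le.refl _⟩

open Classical in
/-- the generic set at coordinate `i` -/
noncomputable def tb (i : II) (w : World PP) (n : ℕ) : Bool :=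
  decide (w.Frc fun p : Cond II => n ∈ (p.co i).s)

theorem tb_iff {i : II} {w : World PP} {n : ℕ} :
    tb i w n = true ↔ w.Frc fun p : Cond II => n ∈ (p.co i).s := by simp [tb]

theorem meas_tb (i : II) : Measurable (tb i) := by
  refine measurable_pi_lambda _ fun n => measurable_to_bool ?_
  have : (fun w => tb i w n) ⁻¹' {true} =
      {w : World PP | w.Frc fun p : Cond II => n ∈ (p.co i).s} := by
    ext w
    simp [tb_iff]
  rw [this, measurableSet_setOfPred]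
  exact meas_frc fun p q h h' => Le.sub h i h'

theorem tb_inf (i : II) : ∀ᶠ w in gen PP, ∀ n, ∃ k, n ≤ k ∧ tb i w k := by
  refine ev_call fun n => ?_
  filter_upwards [ev_dense0 (P := PP) (fun p : Cond II => ∃ k, n ≤ k ∧ k ∈ (p.co i).s) fun p => by
    obtain ⟨r', a1, -, m, a2⟩ := keyLe (rho i) p ∅ {i} finite_empty (finite_singleton _)
      (by simp) (by simp)
    obtain ⟨q, b1, -, b2⟩ := a2 (max m n) (le_max_left _ _) r' a1 (Le.refl _)
    exact ⟨q, b1, max m n, le_max_right _ _, b2 i rfl⟩] with w ⟨r, hr, k, h1, h2⟩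
  exact ⟨k, h1, tb_iff.2 ⟨r, hr, h2⟩⟩

theorem not_mem_of_sup {s : Finset ℕ} {l : ℕ} (h : s.sup id + 1 ≤ l) : l ∉ s := fun hl => by
  have : l ≤ s.sup id := Finset.le_sup (f := id) hl
  omega

theorem tb_tower {η i : II} (h1 : η < i) (h2 : rho η = rho i) :
    ∀ᶠ w in gen PP, ∃ N, ∀ l, N ≤ l → tb i w l → tb η w l := by
  filter_upwards [ev_generic, ev_dense0 (P := PP) (fun p : Cond II => η ∈ (p.co i).A) fun p =>
    ⟨gl i p ⟨(p.co i).s, insert η (p.co i).A, (p.co i).Φ, (p.co i).fA.insert η, (p.co i).fΦ⟩ p,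
      fun j => by
        refine gl_le (LeB.refl _ _) ?_ fun _ => Or.inr rfl
        exact Step.of_s_eq rfl (subset_insert _ _) Subset.rfl, by simp⟩] with w hw ⟨p, hp, h⟩
  refine ⟨(Cond.co p i).s.sup id + 1, fun l hl ht => ?_⟩
  obtain ⟨q, hq, hl'⟩ := tb_iff.1 ht
  obtain ⟨r, hr, a1, a2⟩ := hw.dir p hp q hq
  exact tb_iff.2 ⟨r, hr, ((leAt_iff rho).1 (a1 i)).obT l (Le.sub a2 i hl') (not_mem_of_sup hl)
    η h h1 h2⟩

theorem tb_dom {h : World PP → ℕ → ℕ} (hh : ∀ a, Measurable fun w => h w a) :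
    ∃ i1, ∀ i, i1 ≤ i → ∀ᶠ w in gen PP, ∃ n0, ∀ j, n0 ≤ j → tb i w j → ∀ l, j < l → tb i w l →
      h w (j + 1) ≤ l := by
  have hg : ∀ (s : Finset ℕ) (m : ℕ), Dfn fun w => ∑ j ∈ s, h w (j + 1) = m := fun s m =>
    meas_iff.1 ((Finset.measurable_sum s fun j _ => hh (j + 1)).eq_const m)
  choose D h1 h2 using hg
  have key : ∀ s : Finset ℕ, ∃ f : ℕ → Cond II × ℕ, (∀ n, f n ∈ {x : Cond II × ℕ |
      D s x.2 x.1 ∨ ∀ q, Le rho q x.1 → ∀ m, ¬ D s m q}) ∧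
      ∀ a, ∃ b n, Le rho b a ∧ Le rho b (f n).1 := fun s => cccLe _ fun a => by
    by_cases h3 : ∃ q, Le rho q a ∧ ∃ m, D s m q
    · obtain ⟨q, a1, m, a2⟩ := h3
      exact ⟨(q, m), Or.inl a2, a1⟩
    · push Not at h3
      exact ⟨(a, 0), Or.inr h3, Le.refl _⟩
  choose φ h3 h4 using key
  obtain ⟨i1, h5⟩ := supp_bdd fun x : Finset ℕ × ℕ => (φ x.1 x.2).1
  refine ⟨i1, fun i hi => ?_⟩
  filter_upwards [ev_generic, ev_call fun s => ev_call fun m => h2 s m,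
    ev_dense0 (P := PP) (fun p : Cond II => φ ∈ (p.co i).Φ) fun p =>
    ⟨gl i p ⟨(p.co i).s, (p.co i).A, insert φ (p.co i).Φ, (p.co i).fA, (p.co i).fΦ.insert φ⟩ p,
      fun j => by
        refine gl_le (LeB.refl _ _) ?_ fun _ => Or.inr rfl
        exact Step.of_s_eq rfl Subset.rfl (subset_insert _ _), by simp⟩] with w hw h6 ⟨p, hp, h7⟩
  refine ⟨(Cond.co p i).s.sup id + 1, fun j hj tj l hl tl => ?_⟩
  obtain ⟨q1, hq1, a1⟩ := tb_iff.1 tj
  obtain ⟨q2, hq2, a2⟩ := tb_iff.1 tl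
  obtain ⟨q3, hq3, a3, a4⟩ := hw.dir q1 hq1 q2 hq2
  obtain ⟨q, hq, a5, a6⟩ := hw.dir q3 hq3 p hp
  obtain ⟨n, b1, b2⟩ := ((leAt_iff rho).1 (a6 i)).obN l (Le.sub (a5.trans a4) i a2)
    (not_mem_of_sup (by omega)) φ h7 fun a =>
      let ⟨b, n, c1, c2⟩ := h4 _ a; ⟨b, n, c1.leB _, c2.leB _⟩
  have b3 := le_of_leB b1 fun j hj => h5 (_, n) j (hi.trans hj)
  have b4 : j ∈ (Cond.co q i).s.filter (· < l) :=
    Finset.mem_filter.2 ⟨Le.sub (a5.trans a3) i a1, hl⟩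
  rcases h3 ((Cond.co q i).s.filter (· < l)) n with b5 | b5
  · have := (h6 _ _).2 ⟨q, hq, h1 _ _ _ _ b3 b5⟩
    have b6 := Finset.single_le_sum (f := fun j => h w (j + 1)) (fun _ _ => Nat.zero_le _) b4
    omega
  · obtain ⟨q', hq', b6⟩ := (h6 ((Cond.co q i).s.filter (· < l)) _).1 rfl
    obtain ⟨q'', -, b7, b8⟩ := hw.dir q hq q' hq'
    exact absurd (h1 _ _ _ _ b8 b6) (b5 q'' (Le.trans b7 b3) _)

theorem tb_hit {Φ : ℕ → World PP → Prop} (hΦ : ∀ k, Measurable (Φ k)) :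
    ∃ α, ∀ i, rho i = α → ∀ᶠ w in gen PP, (∀ n, ∃ k, n ≤ k ∧ Φ k w) →
      ∀ n, ∃ k, n ≤ k ∧ Φ k w ∧ tb i w k := by
  choose D h1 h2 using fun k => meas_iff.1 (hΦ k)
  have key : ∀ k, ∃ f : ℕ → Cond II × Unit, (∀ n, f n ∈ {x : Cond II × Unit |
      D k x.1 ∨ ∀ q, Le rho q x.1 → ¬ D k q}) ∧
      ∀ a, ∃ b n, Le rho b a ∧ Le rho b (f n).1 := fun k => cccLe _ fun a => by
    by_cases h3 : ∃ q, Le rho q a ∧ D k q
    · obtain ⟨q, a1, a2⟩ := h3
      exact ⟨(q, ()), Or.inl a2, a1⟩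
    · push Not at h3
      exact ⟨(a, ()), Or.inr h3, Le.refl _⟩
  choose c h3 h4 using key
  have h5 : (⋃ k, ⋃ n, {α | ¬ Hered rho α (c k n).1}).Countable :=
    countable_iUnion fun k => countable_iUnion fun n => countable_not_hered rho _
  obtain ⟨α, hα⟩ : ∃ α, α ∉ ⋃ k, ⋃ n, {α | ¬ Hered rho α (c k n).1} := by
    by_contra h6
    push Not at h6
    exact not_countable_univ (h5.mono fun α _ => h6 α)
  simp only [mem_iUnion, mem_ofPred_eq, not_exists, not_not] at hα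
  refine ⟨α, fun i hi => ?_⟩
  have dense : ∀ (n : ℕ) (p : Cond II), ∃ q, Le rho q p ∧
      ((∃ k, n ≤ k ∧ D k q ∧ k ∈ (q.co i).s) ∨ ∃ n1, ∀ k, n1 ≤ k → ∀ q', Le rho q' q → ¬ D k q') := by
    intro n p
    obtain ⟨r', a1, -, m, a2⟩ := keyLe α p ∅ {i} finite_empty (finite_singleton _)
      (by simp) (by simpa using hi)
    by_cases h6 : ∃ k, max m n ≤ k ∧ ∃ r'', Hered rho α r'' ∧ Le rho r'' r' ∧ D k r''
    · obtain ⟨k, b1, r'', b2, b3, b4⟩ := h6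
      obtain ⟨q, c1, c2, c3⟩ := a2 k (le_of_max_le_left b1) r'' b2 b3
      exact ⟨q, c1, Or.inl ⟨k, le_of_max_le_right b1, h1 k _ _ c2 b4, c3 i rfl⟩⟩
    · obtain ⟨q, c1, c2, -⟩ := a2 m le_rfl r' a1 (Le.refl _)
      refine ⟨q, c1, Or.inr ⟨max m n, fun k hk q' d1 d2 => h6 ⟨k, hk, ?_⟩⟩⟩
      obtain ⟨b, l, e1, e2⟩ := h4 k q'
      obtain ⟨r'', f1, f2, -⟩ := keyLe α b {r', (c k l).1} ∅ (toFinite _) finite_empty (by
        rintro r (rfl | rfl)
        exacts [⟨a1, e1.trans (d1.trans c2)⟩, ⟨hα k l, e2⟩]) (by simp)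
      refine ⟨r'', f1, f2 _ (Or.inl rfl), ?_⟩
      rcases h3 k l with g | g
      · exact h1 k _ _ (f2 _ (Or.inr rfl)) g
      · exact absurd (h1 k _ _ e1 d2) (g b e2)
  filter_upwards [ev_generic, ev_call h2,
    ev_call fun n => ev_dense0 (P := PP) _ (dense n)] with w hw a1 a2 hinf n
  obtain ⟨q, hq, ⟨k, b1, b2, b3⟩ | ⟨n1, b1⟩⟩ := a2 n
  · exact ⟨k, b1, (a1 k).2 ⟨q, hq, b2⟩, tb_iff.2 ⟨q, hq, b3⟩⟩
  · obtain ⟨k, c1, c2⟩ := hinf n1
    obtain ⟨q', hq', c3⟩ := (a1 k).1 c2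
    obtain ⟨r, -, c4, c5⟩ := hw.dir q hq q' hq'
    exact absurd (h1 k _ _ c5 c3) (b1 k c1 r c4)

/-- the next element -/
noncomputable def nx (t : ℕ → Bool) (n : ℕ) : ℕ := sInf {j | n ≤ j ∧ t j}

theorem nx_spec {t : ℕ → Bool} (ht : ∀ n, ∃ k, n ≤ k ∧ t k) (n : ℕ) : n ≤ nx t n ∧ t (nx t n) :=
  Nat.sInf_mem (s := {j | n ≤ j ∧ t j}) (ht n)

theorem meas_nx (i : II) (n : ℕ) : Measurable fun w => nx (tb i w) n :=
  meas_sInf (Φ := fun j w => n ≤ j ∧ tb i w j) fun j =>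
    measurable_const.and (((measurable_pi_apply j).comp (meas_tb i)).eq_const true)

/-- the dominating functions -/
noncomputable def GG (i : II) (w : World PP) (n : ℕ) : ℕ := nx (tb i w) (nx (tb i w) n + 1)

theorem meas_GG (i : II) (n : ℕ) : Measurable fun w => GG i w n :=
  meas_idx (f := fun k w => nx (tb i w) (k + 1)) (fun k => meas_nx i (k + 1)) (meas_nx i n)

theorem GG_dom {g : World PP → ℕ → ℕ} (hg : ∀ n, Measurable fun w => g w n) :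
    ∃ i1, ∀ i, i1 ≤ i → ∀ᶠ w in gen PP, ∀ᶠ n in atTop, g w n ≤ GG i w n := by
  obtain ⟨i1, h⟩ := tb_dom (h := fun w a => ∑ n ∈ Finset.range a, g w n) fun a =>
    Finset.measurable_sum _ fun n _ => hg n
  refine ⟨i1, fun i hi => ?_⟩
  filter_upwards [h i hi, tb_inf i] with w ⟨n0, h1⟩ h2
  filter_upwards [eventually_ge_atTop n0] with n hn
  have a1 := nx_spec h2 n
  have a2 := nx_spec h2 (nx (tb i w) n + 1)
  refine le_trans ?_ (h1 _ (hn.trans a1.1) a1.2 _ a2.1 a2.2)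
  exact Finset.single_le_sum (f := fun n => g w n) (fun _ _ => Nat.zero_le _)
    (Finset.mem_range.2 (Nat.lt_succ_of_le a1.1))

end Pool.Agent.P.MP_6e1b89_gt
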