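import Pool.Agent.P.MP_6e1b89_gt.Cond

/-!
The key reduction lemma.
-/

open Set Filter

namespace Pool.Agent.P.MP_6e1b89_gt

variable {I A : Type} [LinearOrder I] [WellFoundedLT I] {ρ : I → A}

/-- `k` lies in the stems at all coordinates from `F` -/
def InF (F : Set I) (q : Cond I) (k : ℕ) : Prop := ∀ η ∈ F, k ∈ (q.co η).s

theorem InF.mono {i : I} {F : Set I} (hF : ∀ η ∈ F, η < i) {q r : Cond I} {k : ℕ}
    (h : InF F q k) (hr : LeB ρ i r q) : InF F r k := fun η hη => hr.sub (hF η hη) (h η hη)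

variable (ρ) in
/-- the key claim -/
def KeyC (α : A) (i : I) : Prop :=
  ∀ (p : Cond I) (R : Set (Cond I)) (F : Set I), R.Finite → F.Finite →
    (∀ r ∈ R, Hered ρ α r ∧ LeB ρ i p r) → (∀ η ∈ F, η < i ∧ ρ η = α) →
    ∃ r', Hered ρ α r' ∧ (∀ r ∈ R, LeB ρ i r' r) ∧ ∃ n, ∀ k ≥ n, ∀ r'', Hered ρ α r'' →
      LeB ρ i r'' r' → ∃ q, LeB ρ i q p ∧ LeB ρ i q r'' ∧ InF F q k

theorem exists_decide (i : I) (q : Cond I) {Φ : Set (Nm I)} (hΦ : Φ.Finite) (t : Finset ℕ) :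
    ∃ q', LeB ρ i q' q ∧ ∃ m, ∀ φ ∈ Φ, Dec (LeB ρ i) q' (φ t) m := by
  induction Φ, hΦ using Set.Finite.induction_on with
  | empty => exact ⟨q, LeB.refl _ _, 0, by simp⟩
  | @insert φ Φ _ _ ih =>
    obtain ⟨q', h1, m, h2⟩ := ih
    by_cases hp : Pre (LeB ρ i) (φ t)
    · obtain ⟨b, n, h3, h4⟩ := hp q'
      refine ⟨b, h3.trans h1, max m (φ t n).2, fun ψ hψ => ?_⟩
      rcases hψ with rfl | hψ
      · exact fun _ => ⟨n, h4, le_max_right _ _⟩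
      · exact (h2 ψ hψ).mono h3 (le_max_left _ _)
    · refine ⟨q', h1, m, fun ψ hψ => ?_⟩
      rcases hψ with rfl | hψ
      · exact fun h => absurd h hp
      · exact h2 ψ hψ

theorem filter_insert_lt {t : Finset ℕ} {j : ℕ} (h : ∀ l ∈ t, l < j) :
    (insert j t).filter (· < j) = t := by
  ext l
  simp only [Finset.mem_filter, Finset.mem_insert]
  constructor
  · rintro ⟨rfl | h1, h2⟩
    · omega
    · exact h1
  · exact fun h1 => ⟨Or.inr h1, h l h1⟩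

theorem end_insert {t : Finset ℕ} {j : ℕ} (h : ∀ l ∈ t, l < j) : End t (insert j t) :=
  ⟨Finset.subset_insert _ _, fun k hk hk' l hl => by
    rcases Finset.mem_insert.1 hk with rfl | hk
    exacts [h l hl, absurd hk hk']⟩

omit [LinearOrder I] [WellFoundedLT I] in
theorem ObN.insert {L : Cond I → Cond I → Prop} {q : Cond I} {Φ : Set (Nm I)} {s t : Finset ℕ}
    {j : ℕ} (h : ObN L q Φ s t) (hj : ∀ l ∈ t, l < j) (hd : ∀ φ ∈ Φ, Dec L q (φ t) j) :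
    ObN L q Φ s (insert j t) := by
  intro k hk hs φ hφ
  rcases Finset.mem_insert.1 hk with rfl | hk
  · rw [filter_insert_lt hj]
    exact hd φ hφ
  · rw [(end_insert hj).filter hk]
    exact h k hk hs φ hφ

section K

variable (ρ) (α : A) (i : I) (p : Cond I) (F : Set I) (Φ : Set (Nm I)) (s : Finset ℕ)

/-- `k` can be put into the tower sets while `t` obeys the names -/
def QQ (r : Cond I) (t : Finset ℕ) (k : ℕ) : Prop :=
  ∀ r'', Hered ρ α r'' → LeB ρ i r'' r →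
    ∃ q, LeB ρ i q p ∧ LeB ρ i q r'' ∧ ObN (LeB ρ i) q Φ s t ∧ InF F q k

/-- the same, with a bound for the next value -/
def QQ' (r : Cond I) (t : Finset ℕ) (k m : ℕ) : Prop :=
  ∀ r'', Hered ρ α r'' → LeB ρ i r'' r →
    ∃ q, LeB ρ i q p ∧ LeB ρ i q r'' ∧ ObN (LeB ρ i) q Φ s t ∧ InF F q k ∧
      ∀ φ ∈ Φ, Dec (LeB ρ i) q (φ t) m

variable {ρ α i p F Φ s}

theorem QQ.mono {r r1 : Cond I} {t : Finset ℕ} {k : ℕ} (h : QQ ρ α i p F Φ s r t k)
    (hr : LeB ρ i r1 r) : QQ ρ α i p F Φ s r1 t k :=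
  fun r'' h1 h2 => h r'' h1 (h2.trans hr)

theorem QQ'.mono {r r1 : Cond I} {t : Finset ℕ} {k m m1 : ℕ} (h : QQ' ρ α i p F Φ s r t k m)
    (hr : LeB ρ i r1 r) (hm : m ≤ m1) : QQ' ρ α i p F Φ s r1 t k m1 := fun r'' h1 h2 =>
  let ⟨q, a1, a2, a3, a4, a5⟩ := h r'' h1 (h2.trans hr)
  ⟨q, a1, a2, a3, a4, fun φ hφ => (a5 φ hφ).mono (LeB.refl _ _) hm⟩

theorem lemK1 (hC : KeyC ρ α i) (hF : F.Finite) (hF' : ∀ η ∈ F, η < i ∧ ρ η = α)
    (hΦ : Φ.Finite) {r : Cond I} (hr : Hered ρ α r) {t : Finset ℕ} {k : ℕ}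
    (h : QQ ρ α i p F Φ s r t k) :
    ∃ r1, Hered ρ α r1 ∧ LeB ρ i r1 r ∧ ∃ m n1, ∀ k', k' = k ∨ n1 ≤ k' →
      QQ' ρ α i p F Φ s r1 t k' m := by
  obtain ⟨q0, a1, a2, a3, a4⟩ := h r hr (LeB.refl _ _)
  obtain ⟨q1, b1, m, b2⟩ := exists_decide (ρ := ρ) i q0 hΦ t
  obtain ⟨r1, c1, c2, n1, c3⟩ := hC q1 {r} F (finite_singleton _) hF
    (by rintro _ rfl; exact ⟨hr, b1.trans a2⟩) hF'
  refine ⟨r1, c1, c2 r rfl, m, n1, fun k' hk' r'' d1 d2 => ?_⟩
  rcases hk' with rfl | hk'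
  · obtain ⟨q, e1, e2, -⟩ := c3 n1 le_rfl r'' d1 d2
    exact ⟨q, (e1.trans b1).trans a1, e2, a3.mono (e1.trans b1),
      a4.mono (fun η hη => (hF' η hη).1) (e1.trans b1), fun φ hφ => (b2 φ hφ).mono e1 le_rfl⟩
  · obtain ⟨q, e1, e2, e3⟩ := c3 k' hk' r'' d1 d2
    exact ⟨q, (e1.trans b1).trans a1, e2, a3.mono (e1.trans b1), e3,
      fun φ hφ => (b2 φ hφ).mono e1 le_rfl⟩

theorem lemK (hC : KeyC ρ α i) (hF : F.Finite) (hF' : ∀ η ∈ F, η < i ∧ ρ η = α)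
    (hΦ : Φ.Finite) {r : Cond I} (hr : Hered ρ α r) {t : Finset ℕ} {n0 : ℕ}
    (h : ∀ k ≥ n0, QQ ρ α i p F Φ s r t k) :
    ∃ r1, Hered ρ α r1 ∧ LeB ρ i r1 r ∧ ∃ m, ∀ j ≥ m, (∀ l ∈ t, l < j) →
      ∀ k ≥ n0, QQ ρ α i p F Φ s r1 (insert j t) k := by
  obtain ⟨r0, a1, a2, m0, n1, a3⟩ := lemK1 hC hF hF' hΦ hr (h n0 le_rfl)
  have key : ∀ N, ∃ r1, Hered ρ α r1 ∧ LeB ρ i r1 r ∧ ∃ m, ∀ k ≥ n0, k < N ∨ n1 ≤ k →
      QQ' ρ α i p F Φ s r1 t k m := by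
    intro N
    induction N with
    | zero => exact ⟨r0, a1, a2, m0, fun k _ hk => a3 k (Or.inr (by omega))⟩
    | succ N ih =>
      obtain ⟨r1, b1, b2, m1, b3⟩ := ih
      by_cases hN : n0 ≤ N
      · obtain ⟨r2, c1, c2, m2, n2, c3⟩ := lemK1 hC hF hF' hΦ b1 ((h N hN).mono b2)
        refine ⟨r2, c1, c2.trans b2, max m1 m2, fun k hk hk' => ?_⟩
        by_cases hkN : k = N
        · exact (c3 k (Or.inl hkN)).mono (LeB.refl _ _) (le_max_right _ _)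
        · exact (b3 k hk (by omega)).mono c2 (le_max_left _ _)
      · exact ⟨r1, b1, b2, m1, fun k hk hk' => b3 k hk (by omega)⟩
  obtain ⟨r1, b1, b2, m, b3⟩ := key n1
  refine ⟨r1, b1, b2, m, fun j hj ht k hk r'' c1 c2 => ?_⟩
  obtain ⟨q, d1, d2, d3, d4, d5⟩ := b3 k hk (by omega) r'' c1 c2
  exact ⟨q, d1, d2, d3.insert ht fun φ hφ => (d5 φ hφ).mono (LeB.refl _ _) hj, d4⟩

theorem exists_psi (hC : KeyC ρ α i) (hF : F.Finite) (hF' : ∀ η ∈ F, η < i ∧ ρ η = α)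
    (hΦ : Φ.Finite) (n0 : ℕ) :
    ∃ ψ : Nm I, ∀ t, Pre (LeB ρ i) (ψ t) ∧ ∀ n, Hered ρ α (ψ t n).1 ∧
      ∀ r, Hered ρ α r → LeB ρ i r (ψ t n).1 → (∀ k ≥ n0, QQ ρ α i p F Φ s r t k) →
        ∀ j ≥ (ψ t n).2, (∀ l ∈ t, l < j) → ∀ k ≥ n0, QQ ρ α i p F Φ s r (insert j t) k := by
  have key : ∀ t : Finset ℕ, ∃ f : ℕ → Cond I × ℕ, (∀ n, f n ∈ {x : Cond I × ℕ | Hered ρ α x.1 ∧
      ∀ r, Hered ρ α r → LeB ρ i r x.1 → (∀ k ≥ n0, QQ ρ α i p F Φ s r t k) →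
        ∀ j ≥ x.2, (∀ l ∈ t, l < j) → ∀ k ≥ n0, QQ ρ α i p F Φ s r (insert j t) k}) ∧
      ∀ a, ∃ b n, LeB ρ i b a ∧ LeB ρ i b (f n).1 := by
    intro t
    refine ccc (ρ := ρ) (fun b a h => h.leB i) (fun c b a h1 h2 => h1.trans h2) _ fun a => ?_
    obtain ⟨ra, a1, -, n, a2⟩ := hC a ∅ ∅ finite_empty finite_empty (by simp) (by simp)
    by_cases h : ∃ r0, Hered ρ α r0 ∧ LeB ρ i r0 ra ∧ ∀ k ≥ n0, QQ ρ α i p F Φ s r0 t k
    · obtain ⟨r0, b1, b2, b3⟩ := h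
      obtain ⟨r1, c1, c2, m, c3⟩ := lemK hC hF hF' hΦ b1 b3
      obtain ⟨q, d1, d2, -⟩ := a2 n le_rfl r1 c1 (c2.trans b2)
      exact ⟨q, (r1, m), ⟨c1, fun r _ e2 _ j hj ht k hk => (c3 j hj ht k hk).mono e2⟩, d1, d2⟩
    · obtain ⟨q, d1, d2, -⟩ := a2 n le_rfl ra a1 (LeB.refl _ _)
      exact ⟨q, (ra, 0), ⟨a1, fun r e1 e2 e3 => absurd ⟨r, e1, e2, e3⟩ h⟩, d1, d2⟩
  choose ψ h1 h2 using key
  exact ⟨ψ, fun t => ⟨h2 t, h1 t⟩⟩

end K

theorem key_row {α : A} {i i0 : I} (hi : i0 < i) (hC : KeyC ρ α i0) (h0 : ρ i0 = α)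
    (p : Cond I) (R : Set (Cond I)) (F : Set I) (hR : R.Finite) (hF : F.Finite)
    (hR' : ∀ r ∈ R, Hered ρ α r ∧ LeB ρ i p r) (hF' : ∀ η ∈ F, η ≤ i0 ∧ ρ η = α)
    (hp : ∀ j, i0 < j → j < i → p.co j = Co.e) :
    ∃ r', Hered ρ α r' ∧ (∀ r ∈ R, LeB ρ i r' r) ∧ ∃ n, ∀ k ≥ n, ∀ r'', Hered ρ α r'' →
      LeB ρ i r'' r' → ∃ q, LeB ρ i q p ∧ LeB ρ i q r'' ∧ InF F q k := by
  obtain ⟨p1, a1, m, a2⟩ := exists_decide (ρ := ρ) i0 p (p.co i0).fΦ (p.co i0).s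
  obtain ⟨r', b1, b2, n, b3⟩ := hC p1 R {η | η ∈ F ∪ (p.co i0).A ∧ η < i0 ∧ ρ η = α} hR
    ((hF.union (p.co i0).fA).subset fun η hη => hη.1)
    (fun r hr => ⟨(hR' r hr).1, a1.trans ((hR' r hr).2.mono hi.le)⟩) fun η hη => hη.2
  refine ⟨r', b1, fun r hr j hj => ?_, max n (max m ((p.co i0).s.sup id + 1)),
    fun k hk r'' c1 c2 => ?_⟩
  · rcases lt_trichotomy j i0 with h | rfl | h
    · exact b2 r hr j h
    · exact LeAt.of_e (((hered_iff ρ).1 (hR' r hr).1).1 j h0)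
    · exact LeAt.of_e (((hR' r hr).2 j hj).eq_e (hp j h hj))
  · obtain ⟨q, d1, d2, d3⟩ := b3 k (by omega) r'' c1 (c2.mono hi.le)
    have hk' : ∀ l ∈ (p.co i0).s, l < k := fun l hl => by
      have : l ≤ (p.co i0).s.sup id := Finset.le_sup (f := id) hl
      omega
    refine ⟨gl i0 q ⟨insert k (p.co i0).s, (p.co i0).A, (p.co i0).Φ, (p.co i0).fA, (p.co i0).fΦ⟩ r'',
      fun j hj => ?_, fun j _ => ?_, fun η hη => ?_⟩
    · refine gl_le (d1.trans a1) ?_ fun h => Or.inl (hp j h hj)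
      refine ⟨end_insert hk', Subset.rfl, Subset.rfl, ?_, ?_⟩
      · intro j h1 h2 η h3 h4 h5
        rcases Finset.mem_insert.1 h1 with rfl | h1
        · exact d3 η ⟨Or.inr h3, h4, h5.trans h0⟩
        · exact absurd h1 h2
      · exact ObN.insert (fun j h1 h2 => absurd h1 h2) hk'
          fun φ hφ => (a2 φ hφ).mono d1 (by omega)
    · refine gl_le d2 ?_ fun _ => Or.inr rfl
      rw [((hered_iff ρ).1 c1).1 i0 h0]
      exact Step.of_e
    · rcases (hF' η hη).1.lt_or_eq with h | rfl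
      · rw [gl_lt _ _ _ h]
        exact d3 η ⟨Or.inl hη, h, (hF' η hη).2⟩
      · simp

open Classical in
/-- the stems outside row `α` -/
noncomputable def stems (ρ : I → A) (α : A) (p : Cond I) : Cond I :=
  make (fun j => if ρ j = α then Co.e else ⟨(p.co j).s, ∅, ∅, finite_empty, finite_empty⟩)
    (p.fin.subset fun j hj he => by
      refine hj ?_
      split_ifs
      · rfl
      · rw [he]; rfl)

omit [LinearOrder I] [WellFoundedLT I] in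
theorem hered_stems (α : A) (p : Cond I) : Hered ρ α (stems ρ α p) := by
  refine (hered_iff ρ).2 ⟨fun j hj => by simp [stems, hj], fun j φ hφ => ?_⟩
  simp only [stems, co_make] at hφ
  split_ifs at hφ <;> simp at hφ

theorem le_stems (α : A) (p : Cond I) : Le ρ p (stems ρ α p) := by
  intro j
  by_cases h : ρ j = α
  · exact LeAt.of_e (by simp [stems, h])
  · exact (leAt_iff ρ).2 (Step.of_s_eq (by simp [stems, h]) (by simp [stems, h])
      (by simp [stems, h]))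

theorem key_col {α : A} {i i0 : I} (hi : i0 < i) (hC : KeyC ρ α i0) (h0 : ρ i0 ≠ α)
    (p : Cond I) (R : Set (Cond I)) (F : Set I) (hR : R.Finite) (hF : F.Finite)
    (hR' : ∀ r ∈ R, Hered ρ α r ∧ LeB ρ i p r) (hF' : ∀ η ∈ F, η < i0 ∧ ρ η = α)
    (hp : ∀ j, i0 < j → j < i → p.co j = Co.e) :
    ∃ r', Hered ρ α r' ∧ (∀ r ∈ R, LeB ρ i r' r) ∧ ∃ n, ∀ k ≥ n, ∀ r'', Hered ρ α r'' →
      LeB ρ i r'' r' → ∃ q, LeB ρ i q p ∧ LeB ρ i q r'' ∧ InF F q k := by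
  have hS : ∀ r ∈ R, Step ρ i0 (LeB ρ i0) p (p.co i0) (r.co i0) :=
    fun r hr => (leAt_iff ρ).1 ((hR' r hr).2 i0 hi)
  have hΨ : (⋃ r ∈ R, (r.co i0).Φ).Finite := hR.biUnion fun r _ => (r.co i0).fΦ
  have hΨ' : ∀ φ ∈ ⋃ r ∈ R, (r.co i0).Φ, ∀ t n, Hered ρ α (φ t n).1 := by
    intro φ hφ
    simp only [mem_iUnion] at hφ
    obtain ⟨r, hr, hφ⟩ := hφ
    exact ((hered_iff ρ).1 (hR' r hr).1).2 i0 φ hφ
  have hch : ∀ (φ : Nm I) (j : ℕ), ∃ n, Dec (LeB ρ i0) p (φ ((p.co i0).s.filter (· < j))) j →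
      Pre (LeB ρ i0) (φ ((p.co i0).s.filter (· < j))) →
      LeB ρ i0 p (φ ((p.co i0).s.filter (· < j)) n).1 ∧
        (φ ((p.co i0).s.filter (· < j)) n).2 ≤ j := by
    intro φ j
    by_cases h : Dec (LeB ρ i0) p (φ ((p.co i0).s.filter (· < j))) j ∧
      Pre (LeB ρ i0) (φ ((p.co i0).s.filter (· < j)))
    · obtain ⟨n, hn⟩ := h.1 h.2
      exact ⟨n, fun _ _ => hn⟩
    · exact ⟨0, fun h1 h2 => absurd ⟨h1, h2⟩ h⟩
  choose ν hν using hch
  obtain ⟨r0, a1, a2, n0, a3⟩ := hC p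
    {c | c ∈ insert (stems ρ α p) (R ∪ image2 (fun (φ : Nm I) j =>
      (φ ((p.co i0).s.filter (· < j)) (ν φ j)).1) (⋃ r ∈ R, (r.co i0).Φ) (p.co i0).s) ∧
      LeB ρ i0 p c} F
    (((hR.union (hΨ.image2 _ (Finset.finite_toSet _))).insert _).subset fun c hc => hc.1) hF
    (by
      rintro c ⟨rfl | hc | ⟨φ, hφ, j, -, rfl⟩, hc'⟩
      · exact ⟨hered_stems α p, hc'⟩
      · exact ⟨(hR' c hc).1, hc'⟩
      · exact ⟨hΨ' φ hφ _ _, hc'⟩) hF'
  obtain ⟨ψ, hψ⟩ := exists_psi (p := p) (s := (p.co i0).s) hC hF hF' (p.co i0).fΦ n0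
  have a4 : LeB ρ i0 r0 (stems ρ α p) := a2 _ ⟨Or.inl rfl, (le_stems α p).leB i0⟩
  refine ⟨gl i0 r0 ⟨(p.co i0).s, (p.co i0).A, insert ψ (⋃ r ∈ R, (r.co i0).Φ), (p.co i0).fA,
    hΨ.insert ψ⟩ one, hered_gl a1 (hered_one ρ α) h0 ?_, fun r hr j hj => ?_, n0,
    fun k hk r'' c1 c2 => ?_⟩
  · rintro φ (rfl | hφ) t n
    · exact ((hψ t).2 n).1
    · exact hΨ' φ hφ t n
  · refine gl_le (a2 r ⟨Or.inr (Or.inl hr), (hR' r hr).2.mono hi.le⟩) ?_
      fun h => Or.inl (((hR' r hr).2 j hj).eq_e (hp j h hj))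
    refine ⟨(hS r hr).en, (hS r hr).sA, fun φ hφ => Or.inr (mem_biUnion hr hφ), ?_, ?_⟩
    · intro l h1 h2 η h3 h4 h5
      refine a4.sub h4 ?_
      have : ρ η ≠ α := h5 ▸ h0
      simpa [stems, this] using (hS r hr).obT l h1 h2 η h3 h4 h5
    · intro l h1 h2 φ h3 h4
      obtain ⟨e1, e2⟩ := hν φ l ((hS r hr).obN l h1 h2 φ h3) h4
      exact ⟨ν φ l, a2 _ ⟨Or.inr (Or.inr ⟨φ, mem_biUnion hr h3, l, h1, rfl⟩), e1⟩, e2⟩
  · have c3 := (leAt_iff ρ).1 (c2 i0 hi)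
    rw [gl_self] at c3
    have c4 : LeB ρ i0 r'' r0 := (c2.mono hi.le).trans (gl_leB _ _ _ _)
    have key : ∀ m, ∀ k ≥ n0, QQ ρ α i0 p F (p.co i0).Φ (p.co i0).s r''
        ((p.co i0).s ∪ (r''.co i0).s.filter (· < m)) k := by
      intro m
      induction m with
      | zero =>
        intro k hk r1 e1 e2
        obtain ⟨q, f1, f2, f3⟩ := a3 k hk r1 e1 (e2.trans c4)
        exact ⟨q, f1, f2, fun j h1 h2 => absurd (by simpa using h1) h2, f3⟩
      | succ m ih =>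
        by_cases hm : m ∈ (r''.co i0).s ∧ m ∉ (p.co i0).s
        · have e1 : (p.co i0).s ∪ (r''.co i0).s.filter (· < m) = (r''.co i0).s.filter (· < m) := by
            refine Finset.union_eq_right.2 fun l hl => Finset.mem_filter.2
              ⟨c3.en.1 hl, c3.en.2 m hm.1 hm.2 l hl⟩
          have e2 : (p.co i0).s ∪ (r''.co i0).s.filter (· < m + 1) =
              insert m ((p.co i0).s ∪ (r''.co i0).s.filter (· < m)) := by
            ext l
            simp only [Finset.mem_union, Finset.mem_filter, Finset.mem_insert]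
            constructor
            · rintro (h | ⟨h1, h2⟩)
              · exact Or.inr (Or.inl h)
              · by_cases h : l = m
                · exact Or.inl h
                · exact Or.inr (Or.inr ⟨h1, by omega⟩)
            · rintro (rfl | h | ⟨h1, h2⟩)
              · exact Or.inr ⟨hm.1, by omega⟩
              · exact Or.inl h
              · exact Or.inr ⟨h1, by omega⟩
          rw [e2]
          rw [e1] at ih ⊢
          obtain ⟨n, f1, f2⟩ := c3.obN m hm.1 hm.2 ψ (Or.inl rfl) (hψ _).1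
          exact ((hψ _).2 n).2 r'' c1 f1 ih m f2 fun l hl => (Finset.mem_filter.1 hl).2
        · have e2 : (p.co i0).s ∪ (r''.co i0).s.filter (· < m + 1) =
              (p.co i0).s ∪ (r''.co i0).s.filter (· < m) := by
            ext l
            simp only [Finset.mem_union, Finset.mem_filter]
            constructor
            · rintro (h | ⟨h1, h2⟩)
              · exact Or.inl h
              · by_cases h : l = m
                · subst h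
                  exact Or.inl (by tauto)
                · exact Or.inr ⟨h1, by omega⟩
            · rintro (h | ⟨h1, h2⟩)
              · exact Or.inl h
              · exact Or.inr ⟨h1, by omega⟩
          rwa [e2]
    have e3 : (p.co i0).s ∪ (r''.co i0).s.filter (· < (r''.co i0).s.sup id + 1) =
        (r''.co i0).s := by
      rw [Finset.filter_true_of_mem]
      · exact Finset.union_eq_right.2 c3.en.1
      · exact fun l hl => Nat.lt_succ_of_le (Finset.le_sup (f := id) hl)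
    obtain ⟨q, d1, d2, d3, d4⟩ := key ((r''.co i0).s.sup id + 1) k hk r'' c1 (LeB.refl _ _)
    rw [e3] at d3
    refine ⟨gl i0 q ⟨(r''.co i0).s, (r''.co i0).A, (r''.co i0).Φ ∪ (p.co i0).Φ, (r''.co i0).fA,
      (r''.co i0).fΦ.union (p.co i0).fΦ⟩ r'',
      fun j hj => ?_, fun j _ => ?_, fun η hη => ?_⟩
    · refine gl_le d1 ?_ fun h => Or.inl (hp j h hj)
      exact ⟨c3.en, c3.sA, subset_union_right, c3.obT.mono d2, d3⟩
    · refine gl_le d2 ?_ fun _ => Or.inr rfl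
      exact Step.of_s_eq rfl Subset.rfl subset_union_left
    · rw [gl_lt _ _ _ (hF' η hη).1]
      exact d4 η hη

theorem keyC (α : A) (i : I) : KeyC ρ α i := by
  induction i using WellFoundedLT.induction with
  | ind i ih =>
    intro p R F hR hF hR' hF'
    have hS : {j | (p.co j ≠ Co.e ∨ j ∈ F) ∧ j < i}.Finite :=
      (p.fin.union hF).subset fun j hj => hj.1
    rcases eq_empty_or_nonempty {j | (p.co j ≠ Co.e ∨ j ∈ F) ∧ j < i} with h | h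
    · have h1 : ∀ j < i, p.co j = Co.e ∧ j ∉ F := fun j hj => by
        have := eq_empty_iff_forall_notMem.1 h j
        simp only [mem_ofPred_eq] at this
        tauto
      exact ⟨one, hered_one ρ α,
        fun r hr j hj => LeAt.of_e (((hR' r hr).2 j hj).eq_e (h1 j hj).1), 0,
        fun k _ r'' _ _ => ⟨r'', fun j hj => LeAt.of_e (h1 j hj).1, LeB.refl _ _,
          fun η hη => absurd hη (h1 η (hF' η hη).1).2⟩⟩
    · obtain ⟨i0, h1, h2⟩ := hS.exists_maximal h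
      have hp : ∀ j, i0 < j → j < i → p.co j = Co.e := fun j a1 a2 => by
        by_contra h3
        exact absurd (h2 ⟨Or.inl h3, a2⟩ a1.le) a1.not_ge
      have hle : ∀ η ∈ F, η ≤ i0 := fun η hη => by
        by_contra h3
        have h4 := not_le.1 h3
        exact h3 (h2 ⟨Or.inr hη, (hF' η hη).1⟩ h4.le)
      by_cases h0 : ρ i0 = α
      · exact key_row h1.2 (ih i0 h1.2) h0 p R F hR hF hR'
          (fun η hη => ⟨hle η hη, (hF' η hη).2⟩) hp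
      · refine key_col h1.2 (ih i0 h1.2) h0 p R F hR hF hR' (fun η hη => ⟨?_, (hF' η hη).2⟩) hp
        refine (hle η hη).lt_of_ne ?_
        rintro rfl
        exact h0 (hF' η hη).2

end Pool.Agent.P.MP_6e1b89_gt
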