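import Pool.Agent.P.MP_6e1b89_gt.Gen

/-!
The model in which the additivity number is smaller than the bounding number.
-/

open Set Filter Pool.Agent.Lib.Helper87 Topology

namespace Pool.Agent.P.MP_6e1b89_gt

theorem exists_ee : ∃ e : (ℕ → Bool) → ℝ, IsEmbedding e :=
  ⟨_, IsEmbedding.subtypeVal.comp cantorSetHomeomorphNatToBool.symm.isEmbedding⟩

/-- an embedding of the Cantor space into the line -/
noncomputable def ee : (ℕ → Bool) → ℝ := exists_ee.choose

theorem ee_emb : IsEmbedding ee := exists_ee.choose_spec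

theorem ee_open {O : Set ℝ} (hO : IsOpen O) {y : ℕ → Bool} (hy : ee y ∈ O) :
    ∃ m, ∀ y', (∀ l < m, y' l = y l) → ee y' ∈ O := by
  obtain ⟨J, u, h1, h2⟩ := isOpen_pi_iff.1 (hO.preimage ee_emb.continuous) y hy
  refine ⟨J.sup id + 1, fun y' hy' => h2 fun l hl => ?_⟩
  rw [hy' l (Nat.lt_succ_of_le (Finset.le_sup (f := id) hl))]
  exact (h1 l hl).2

/-- characteristic functions -/
def chi (s : Finset ℕ) (n : ℕ) : Bool := decide (n ∈ s)

/-- indices of points -/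
abbrev TT : Type := Finset ℕ ⊕ II

/-- the points -/
noncomputable def pt : TT → World PP → ℕ → Bool
  | .inl s, _ => chi s
  | .inr i, w => tb i w

/-- indices in row `α` -/
def ok (α : ℝ) : TT → Prop
  | .inl _ => True
  | .inr i => rho i = α

theorem meas_pt (a : TT) : Measurable (pt a) := by
  cases a with
  | inl s => exact measurable_const
  | inr i => exact meas_tb i

theorem meas_pt' (a : TT) (l : ℕ) (b : Bool) : Measurable fun w => pt a w l = b :=
  ((measurable_pi_apply l).comp (meas_pt a)).eq_const b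

theorem named_pt (a : TT) : Named fun w => cReal (ee (pt a w)) :=
  named_real (ee_emb.continuous.measurable.comp (meas_pt a))

/-- the sets of reals -/
def XX (α : ℝ) (w : World PP) : Set ℝ := {x | ∃ a, w.In a ∧ ok α a ∧ ee (pt a w) = x}

/-- the family -/
def FF (w : World PP) : Set (Set ℝ) := {X | ∃ α, w.In α ∧ True ∧ XX α w = X}

theorem named_XX (α : ℝ) : Named fun w => cSet cReal (XX α w) :=
  named_cSet (c := fun _ => cReal) named_pt fun _ => measurable_const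

theorem named_FF : Named fun w => cSet (cSet cReal) (FF w) :=
  named_cSet (c := fun _ => cSet cReal) named_XX fun _ => measurable_const

theorem ev_inl : ∀ᶠ w in gen PP, ∀ s : Finset ℕ, w.In (Sum.inl s : TT) :=
  ev_call fun _ => ev_const _

theorem gamma_range {X : Set ℝ} {𝒰 : ℕ → Set (Set ℝ)} (h : ∀ n, GammaCover X (𝒰 n))
    {U : ℕ → Set ℝ} (hU : ∀ n, U n ∈ 𝒰 n) (hx : ∀ x ∈ X, ∀ᶠ n in atTop, x ∈ U n) :
    GammaCover X (range U) := by
  have hne : ∀ n, U n ≠ X := fun n e => (h n).2.1 (e ▸ hU n)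
  refine ⟨?_, ?_, fun hfin => ?_, fun x hx' => ?_⟩
  · rintro _ ⟨n, rfl⟩
    exact (h n).1 _ (hU n)
  · rintro ⟨n, e⟩
    exact hne n e
  · have h1 : ∀ V ∈ range U, ∀ᶠ n in atTop, U n ≠ V := by
      rintro _ ⟨m, rfl⟩
      obtain ⟨O, -, hO⟩ := (h m).1 _ (hU m)
      obtain ⟨x, h2, h3⟩ : ∃ x ∈ X, x ∉ U m := by
        by_contra h2
        push Not at h2
        exact hne m (Subset.antisymm (hO ▸ inter_subset_left) h2)
      filter_upwards [hx x h2] with n hn e
      exact h3 (e ▸ hn)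
    obtain ⟨n, hn⟩ := ((eventually_all_finite hfin).2 h1).exists
    exact hn _ (mem_range_self n) rfl
  · have h1 := hx x hx'
    rw [← Nat.cofinite_eq_atTop, eventually_cofinite] at h1
    refine (h1.image U).subset ?_
    rintro _ ⟨⟨n, rfl⟩, h2⟩
    exact ⟨n, h2, rfl⟩

theorem comb {T : Type} {J : T → Prop} {y : T → ℕ → Bool} {ι : Finset ℕ → T}
    (h1 : ∀ s, J (ι s)) (h2 : ∀ s, y (ι s) = chi s) {mem : ℕ → ℕ → T → Prop}
    (hopen : ∀ n k x, J x → mem n k x → ∃ m, ∀ x', J x' → (∀ l < m, y x' l = y x l) → mem n k x')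
    (hγ : ∀ n x, J x → ∀ᶠ k in atTop, mem n k x) (κ : ℕ → ℕ → ℕ)
    (hκ : ∀ n a, κ n a = sInf {k | a ≤ k ∧ ∀ s : Finset ℕ, s ⊆ Finset.range a → mem n k (ι s)})
    (a : ℕ) : (∀ n, a ≤ κ n a) ∧ {b | ∀ n ≤ a, ∀ x, J x → (∀ l, a ≤ l → l < b → y x l = false) →
      mem n (κ n a) x}.Nonempty := by
  have h3 : ∀ n, a ≤ κ n a ∧ ∀ s : Finset ℕ, s ⊆ Finset.range a → mem n (κ n a) (ι s) := by
    intro n
    rw [hκ]
    refine Nat.sInf_mem (s := {k | a ≤ k ∧ ∀ s : Finset ℕ, s ⊆ Finset.range a → mem n k (ι s)}) ?_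
    have := (eventually_ge_atTop a).and ((eventually_all_finset (Finset.range a).powerset).2
      fun s _ => hγ n _ (h1 s))
    obtain ⟨k, a1, a2⟩ := this.exists
    exact ⟨k, a1, fun s hs => a2 s (Finset.mem_powerset.2 hs)⟩
  refine ⟨fun n => (h3 n).1, ?_⟩
  have h4 : ∀ n ∈ Finset.range (a + 1), ∀ᶠ b in atTop, ∀ s ∈ (Finset.range a).powerset,
      ∀ x, J x → (∀ l < b, y x l = chi s l) → mem n (κ n a) x := by
    intro n _
    refine (eventually_all_finset _).2 fun s hs => ?_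
    obtain ⟨m, hm⟩ := hopen n _ _ (h1 s) ((h3 n).2 s (Finset.mem_powerset.1 hs))
    filter_upwards [eventually_ge_atTop m] with b hb x hx h5
    exact hm x hx fun l hl => by rw [h2, h5 l (hl.trans_le hb)]
  obtain ⟨b, hb⟩ := ((eventually_all_finset _).2 h4).exists
  refine ⟨b, fun n hn x hx h5 => hb n (Finset.mem_range.2 (by omega))
    ((Finset.range a).filter fun l => y x l) (Finset.mem_powerset.2 (Finset.filter_subset _ _))
    x hx fun l hl => ?_⟩
  by_cases hla : l < a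
  · simp [chi, hla]
  · simp [chi, hla, h5 l (not_lt.1 hla) hl]

theorem ev_S1_name (α : ℝ) (σ : Name PP) : ∀ᶠ w in gen PP, ∀ 𝒰 : ℕ → Set (Set ℝ),
    cFun cNat (cSet (cSet cReal)) univ 𝒰 = w.val σ → (∀ n, GammaCover (XX α w) (𝒰 n)) →
    ∃ U : ℕ → Set ℝ, cFun cNat (cSet cReal) univ U ∈ w.M ∧ (∀ n, U n ∈ 𝒰 n) ∧
      GammaCover (XX α w) (range U) := by
  choose ν hν using fun n => ((named_val σ).app (named_nat n)).enum
  obtain ⟨mem, hmem⟩ : ∃ mem : World PP → ℕ → ℕ → TT → Prop,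
      ∀ w n k x, mem w n k x = (cReal (ee (pt x w)) ∈ w.val (ν n k)) := ⟨_, fun _ _ _ _ => rfl⟩
  have m1 : ∀ n k x, Measurable fun w => mem w n k x := fun n k x => by
    simp only [hmem]
    exact (named_pt x).mem (named_val _)
  obtain ⟨κ, hκ⟩ : ∃ κ : World PP → ℕ → ℕ → ℕ, ∀ w n a, κ w n a =
      sInf {k | a ≤ k ∧ ∀ s : Finset ℕ, s ⊆ Finset.range a → mem w n k (.inl s)} :=
    ⟨_, fun _ _ _ => rfl⟩
  have m2 : ∀ n a, Measurable fun w => κ w n a := fun n a => by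
    simp only [hκ]
    exact meas_sInf fun k => measurable_const.and (Measurable.forall fun s =>
      measurable_const.imp (m1 _ _ _))
  obtain ⟨h, hh⟩ : ∃ h : World PP → ℕ → ℕ, ∀ w a, h w a = sInf {b | ∀ n ≤ a, ∀ x, w.In x →
      ok α x → (∀ l, a ≤ l → l < b → pt x w l = false) → mem w n (κ w n a) x} :=
    ⟨_, fun _ _ => rfl⟩
  have m3 : ∀ a, Measurable fun w => h w a := fun a => by
    simp only [hh]
    exact meas_sInf fun b => Measurable.forall fun n => measurable_const.imp (meas_all fun x =>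
      measurable_const.imp ((Measurable.forall fun l => measurable_const.imp
        (measurable_const.imp (meas_pt' x l false))).imp
        (meas_idx (f := fun k w => mem w n k x) (fun k => m1 n k x) (m2 n a))))
  obtain ⟨g, hg⟩ : ∃ g : II → World PP → ℕ → ℕ, ∀ i w n, g i w n =
      sInf {l | ∀ k, l ≤ k → mem w n k (.inr i)} := ⟨_, fun _ _ _ => rfl⟩
  have m4 : ∀ i n, Measurable fun w => g i w n := fun i n => by
    simp only [hg]
    exact meas_sInf fun l => Measurable.forall fun k => measurable_const.imp (m1 _ _ _)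
  obtain ⟨j0, hj0⟩ := tb_dom m3
  obtain ⟨i0, a1, a2⟩ := rho_cof α j0
  choose j1 hj1 using fun i => GG_dom (m4 i)
  obtain ⟨i1, a3⟩ := bdd_lt i0 j1
  obtain ⟨K, hK⟩ : ∃ K : World PP → ℕ → ℕ, ∀ w n,
      K w n = κ w n (nx (tb i0 w) (GG i1 w n) + 1) := ⟨_, fun _ _ => rfl⟩
  have m5 : ∀ n, Measurable fun w => K w n := fun n => by
    simp only [hK]
    exact meas_idx (f := fun a w => κ w n (a + 1)) (fun a => m2 n (a + 1))
      (meas_idx (f := fun k w => nx (tb i0 w) k) (meas_nx i0) (meas_GG i1 n))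
  have n1 : Named fun w => cSet (fun n => (cNat n).pair (w.val (ν n (K w n)))) {_n | True} :=
    named_cSet_c (fun n => (named_nat n).pair
      (named_idx (X := fun k w => w.val (ν n k)) (fun k => named_val _) (m5 n)))
      (Φ := fun _ _ => True) fun _ => measurable_const
  have n2 : ∀ᶠ w in gen PP, ∀ i, w.In i → i < i0 → ∀ᶠ n in atTop, g i w n ≤ GG i1 w n :=
    ev_all fun i => ev_imp fun hi => hj1 i i1 (a3 i hi).le
  have n3 : ∀ᶠ w in gen PP, ∀ i, w.In i → i0 < i → rho i = α →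
      ∃ N, ∀ l, N ≤ l → tb i w l → tb i0 w l :=
    ev_all fun i => ev_imp fun hi => ev_imp fun hr => tb_tower hi (a2.trans hr.symm)
  filter_upwards [ev_call hν, n1.mem_M, hj0 i0 a1, tb_inf i0, tb_inf i1, ev_inl, n2, n3,
    ev_in_sum (Finset ℕ) II]
    with w b1 b2 ⟨n0, b3⟩ b4 b5 b6 b7 b8 b9 𝒰 e hγ
  have inj := cSet_inj cReal_inj
  have c1 : ∀ n, app (w.val σ) (cNat n) = cSet (cSet cReal) (𝒰 n) := fun n => by
    rw [← e, app_cFun cNat_inj (mem_univ n)]
  have c2 : ∀ n, (∀ k, w.val (ν n k) ∈ cSet (cSet cReal) (𝒰 n)) ∧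
      Function.Injective fun k => w.val (ν n k) := fun n => by
    rw [← c1]
    refine b1 n (((hγ n).2.2.1.image inj.injOn).mono ?_)
    rintro _ ⟨U, hU, rfl⟩
    rw [mem_ofPred_eq, c1]
    exact mem_cSet.2 ⟨U, hU, rfl⟩
  choose U c3 c4 using fun n k => mem_cSet.1 ((c2 n).1 k)
  have c5 : ∀ n k x, mem w n k x ↔ ee (pt x w) ∈ U n k := fun n k x => by
    rw [hmem, ← c4, mem_cSet_iff cReal_inj]
  have c6 : ∀ n x, w.In x ∧ ok α x → ∀ᶠ k in atTop, mem w n k x := fun n x hx => by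
    rw [← Nat.cofinite_eq_atTop, eventually_cofinite]
    refine (((hγ n).2.2.2 _ ⟨x, hx.1, hx.2, rfl⟩).preimage (f := U n) fun k _ l _ hkl =>
      (c2 n).2 (by simp only [← c4, hkl])).subset fun k hk => ⟨c3 n k, ?_⟩
    rwa [← c5]
  have c7 := comb (J := fun x => w.In x ∧ ok α x) (y := fun x => pt x w) (ι := Sum.inl)
    (fun s => ⟨b6 s, trivial⟩) (fun s => rfl) (mem := mem w) (fun n k x hx hm => by
      obtain ⟨O, o1, o2⟩ := (hγ n).1 _ (c3 n k)
      rw [c5, o2] at hm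
      obtain ⟨m, hm'⟩ := ee_open o1 hm.2
      refine ⟨m, fun x' hx' h' => ?_⟩
      rw [c5, o2]
      exact ⟨⟨x', hx'.1, hx'.2, rfl⟩, hm' _ h'⟩) c6 (κ w) (hκ w)
  have c8 : ∀ a, ∀ n ≤ a, ∀ x, w.In x → ok α x →
      (∀ l, a ≤ l → l < h w a → pt x w l = false) → mem w n (κ w n a) x := fun a => by
    rw [hh]
    refine Nat.sInf_mem (s := {b | ∀ n ≤ a, ∀ x, w.In x → ok α x →
      (∀ l, a ≤ l → l < b → pt x w l = false) → mem w n (κ w n a) x}) ?_
    obtain ⟨b, hb⟩ := (c7 a).2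
    exact ⟨b, fun n hn x d1 d2 => hb n hn x ⟨d1, d2⟩⟩
  have c9 : ∀ n, n ≤ GG i1 w n := fun n => by
    have d1 := (nx_spec b5 n).1
    have d2 := (nx_spec b5 (nx (tb i1 w) n + 1)).1
    exact d1.trans ((Nat.le_succ _).trans d2)
  have c10 : ∀ x, w.In x → ok α x → (∃ N, ∀ l, N ≤ l → pt x w l → tb i0 w l) →
      ∀ᶠ n in atTop, mem w n (K w n) x := by
    rintro x d1 d2 ⟨N, d3⟩
    filter_upwards [eventually_ge_atTop N, eventually_ge_atTop n0] with n d4 d5
    have d6 := nx_spec b4 (GG i1 w n)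
    have d7 := c9 n
    rw [hK]
    refine c8 _ n (by omega) x d1 d2 fun l d8 d9 => ?_
    by_contra d10
    have := b3 _ (by omega) d6.2 l d8 (d3 l (by omega) (by simpa using d10))
    omega
  refine ⟨fun n => U n (K w n), ?_, fun n => c3 _ _, gamma_range hγ (fun n => c3 _ _) ?_⟩
  · simp only [cFun, c4]
    exact b2
  · rintro _ ⟨x, d1, d2, rfl⟩
    simp only [← c5]
    rcases x with s | i
    · refine c10 _ d1 d2 ⟨s.sup id + 1, fun l hl h' => absurd ?_ (not_mem_of_sup hl)⟩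
      simpa [pt, chi] using h'
    · rcases lt_trichotomy i i0 with hi | rfl | hi
      · filter_upwards [b7 i ((b9.2 i).1 d1) hi] with n hn
        have d3 : ∀ k, g i w n ≤ k → mem w n k (.inr i) := by
          rw [hg]
          refine Nat.sInf_mem (s := {l | ∀ k, l ≤ k → mem w n k (.inr i)}) ?_
          exact eventually_atTop.1 (c6 n _ ⟨d1, d2⟩)
        refine d3 _ (hn.trans ?_)
        rw [hK]
        exact ((nx_spec b4 _).1.trans (Nat.le_succ _)).trans ((c7 _).1 n)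
      · exact c10 _ d1 d2 ⟨0, fun l _ h' => h'⟩
      · exact c10 _ d1 d2 (b8 i ((b9.2 i).1 d1) hi d2)

theorem ev_S1 : ∀ᶠ w in gen PP, ∀ X ∈ FF w, S1 w.M X := by
  filter_upwards [ev_all fun α => ev_all fun σ => ev_S1_name α σ] with w hw
  rintro _ ⟨α, hα, -, rfl⟩ 𝒰 ⟨σ, h1, h2⟩ hγ
  exact hw α hα σ h1 𝒰 h2.symm hγ

theorem ev_b : ∀ᶠ w in gen PP, ∀ E : Set ℝ → ℕ → ℕ,
    cFun (cSet cReal) (cFun cNat cNat univ) (FF w) E ∈ w.M →
      ∃ g : ℕ → ℕ, cFun cNat cNat univ g ∈ w.M ∧ ∀ X ∈ FF w, ∀ᶠ n in atTop, E X n ≤ g n := by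
  have key : ∀ σ : Name PP, ∀ᶠ w in gen PP, ∀ E : Set ℝ → ℕ → ℕ,
      cFun (cSet cReal) (cFun cNat cNat univ) (FF w) E = w.val σ →
      ∃ g : ℕ → ℕ, cFun cNat cNat univ g ∈ w.M ∧ ∀ X ∈ FF w, ∀ᶠ n in atTop, E X n ≤ g n := by
    intro σ
    let g : ℝ → World PP → ℕ → ℕ := fun α w n =>
      sInf {m | app (app (w.val σ) (cSet cReal (XX α w))) (cNat n) = cNat m}
    have m1 : ∀ α n, Measurable fun w => g α w n := fun α n =>
      meas_sInf fun m => (((named_val σ).app (named_XX α)).app (named_nat n)).eq (named_nat m)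
    choose j hj using fun α => GG_dom (m1 α)
    obtain ⟨i, hi⟩ := bdd Cardinal.mk_real.le j
    filter_upwards [ev_all fun α => hj α i (hi α).le, (named_natFun (meas_GG i)).mem_M]
      with w b1 b2 E e
    refine ⟨_, b2, ?_⟩
    rintro _ ⟨α, hα, -, rfl⟩
    filter_upwards [b1 α hα] with n hn
    refine le_of_eq_of_le ?_ hn
    simp only [g]
    rw [← e, app_cFun (cSet_inj cReal_inj) (show XX α w ∈ FF w from ⟨α, hα, trivial, rfl⟩),
      app_cFun cNat_inj (mem_univ n)]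
    simp [cNat_inj.eq_iff]
  filter_upwards [ev_all key] with w hw E ⟨σ, h1, h2⟩
  exact hw σ h1 E h2.symm

/-- `m` is the first element of `y` which is at least `n` -/
def bad (n m : ℕ) (y : ℕ → Bool) : Prop := y m = true ∧ ∀ l, n ≤ l → l < m → y l = false

theorem isOpen_not_bad (n m : ℕ) : IsOpen {y | ¬ bad n m y} := by
  refine isOpen_compl_iff.2 (?_ : IsClosed {y | bad n m y})
  simp only [bad, ofPred_and, ofPred_forall]
  exact (isClosed_eq (continuous_apply m) continuous_const).inter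
    (isClosed_iInter fun l => isClosed_iInter fun _ => isClosed_iInter fun _ =>
      isClosed_eq (continuous_apply l) continuous_const)

theorem bad_chi {n m k : ℕ} : bad n m (chi {k}) ↔ k = m := by
  constructor
  · intro h
    simpa [chi, eq_comm] using h.1
  · rintro rfl
    exact ⟨by simp [chi], fun l _ h => by simp [chi, h.ne]⟩

/-- members of the covers -/
def WW (w : World PP) (n m : ℕ) : Set ℝ :=
  {x | ∃ a, w.In a ∧ ¬ bad n m (pt a w) ∧ ee (pt a w) = x}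

/-- the covers -/
def WC (w : World PP) (n : ℕ) : Set (Set ℝ) := {W | ∃ m, w.In m ∧ n ≤ m ∧ WW w n m = W}

theorem named_WC : Named fun w => cFun cNat (cSet (cSet cReal)) univ (WC w) :=
  named_cFun fun n => named_cSet (c := fun _ => cSet cReal) (f := fun m w => WW w n m)
    (fun m => named_cSet (c := fun _ => cReal) named_pt fun a =>
      ((meas_pt' a m true).and (Measurable.forall fun l => measurable_const.imp
        (measurable_const.imp (meas_pt' a l false)))).not) fun _ => measurable_const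

theorem mem_WW {w : World PP} {n m : ℕ} {a : TT} (ha : w.In a) :
    ee (pt a w) ∈ WW w n m ↔ ¬ bad n m (pt a w) :=
  ⟨fun ⟨_, _, h1, h2⟩ => ee_emb.injective h2 ▸ h1, fun h => ⟨a, ha, h, rfl⟩⟩

theorem ev_union_FF : ∀ᶠ w in gen PP, ⋃₀ FF w = {x | ∃ a, w.In a ∧ ee (pt a w) = x} := by
  filter_upwards [ev_all fun a : TT => ev_skolem fun α => ok α a] with w hw
  ext x
  constructor
  · rintro ⟨_, ⟨α, -, -, rfl⟩, a, h1, -, h2⟩
    exact ⟨a, h1, h2⟩
  · rintro ⟨a, h1, h2⟩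
    obtain ⟨α, h3, h4⟩ := hw a h1 (by
      rcases a with s | i
      exacts [⟨0, trivial⟩, ⟨_, rfl⟩])
    exact ⟨_, ⟨α, h3, trivial, rfl⟩, a, h1, h4, h2⟩

theorem ev_gamma : ∀ᶠ w in gen PP, ∀ n, GammaCover (⋃₀ FF w) (WC w n) := by
  filter_upwards [ev_union_FF, ev_inl, ev_ctype ℕ] with w h1 h2 h3 n
  have h4 : ∀ k m, ee (chi {k}) ∈ WW w n m ↔ k ≠ m := fun k m =>
    (mem_WW (h2 {k})).trans bad_chi.not
  rw [h1]
  refine ⟨?_, ?_, ?_, ?_⟩
  · rintro _ ⟨m, -, -, rfl⟩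
    obtain ⟨O, o1, o2⟩ := ee_emb.isInducing.isOpen_iff.1 (isOpen_not_bad n m)
    refine ⟨O, o1, ?_⟩
    ext x
    constructor
    · rintro ⟨a, a1, a2, rfl⟩
      exact ⟨⟨a, a1, rfl⟩, o2.superset a2⟩
    · rintro ⟨⟨a, a1, rfl⟩, a2⟩
      exact ⟨a, a1, o2.subset a2, rfl⟩
  · rintro ⟨m, -, -, e⟩
    exact (h4 m m).1 (e ▸ ⟨_, h2 {m}, rfl⟩) rfl
  · refine infinite_of_injective_forall_mem (f := fun m => WW w n (n + m)) (fun k m e => ?_)
      fun m => ⟨_, h3 _, Nat.le_add_right _ _, rfl⟩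
    by_contra hne
    have := (h4 (n + k) (n + m)).2 (by omega)
    simp only at e
    rw [← e, h4] at this
    exact this rfl
  · rintro _ ⟨a, a1, rfl⟩
    refine Set.Subsingleton.finite ?_
    rintro _ ⟨⟨m, -, b1, rfl⟩, b2⟩ _ ⟨⟨k, -, b3, rfl⟩, b4⟩
    rw [mem_WW a1, not_not] at b2 b4
    rcases lt_trichotomy m k with h | rfl | h
    · have := b4.2 m b1 h
      rw [b2.1] at this
      cases this
    · rfl
    · have := b2.2 k b3 h
      rw [b4.1] at this
      cases this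

theorem ev_not_name (σ : Name PP) : ∀ᶠ w in gen PP, ∀ U : ℕ → Set ℝ,
    cFun cNat (cSet cReal) univ U = w.val σ → (∀ n, U n ∈ WC w n) →
    ¬ GammaCover (⋃₀ FF w) (range U) := by
  let g : World PP → ℕ → ℕ := fun w n =>
    sInf {m | cReal (ee (chi {m})) ∉ app (w.val σ) (cNat n)}
  have m1 : ∀ n, Measurable fun w => g w n := fun n =>
    meas_sInf fun m => ((named_pt (.inl {m})).mem ((named_val σ).app (named_nat n))).not
  obtain ⟨α, hα⟩ := tb_hit (Φ := fun k w => ∃ n, g w n = k) fun k =>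
    Measurable.exists fun n => (m1 n).eq_const k
  obtain ⟨j, hj⟩ := tb_dom (h := fun w a => ∑ n ∈ Finset.range a, g w n + 1) fun a =>
    (Finset.measurable_sum _ fun n _ => m1 n).add_const 1
  obtain ⟨i, a1, a2⟩ := rho_cof α j
  filter_upwards [hα i a2, hj i a1, ev_union_FF, ev_inl, ev_const (Sum.inr i : TT)]
    with w b1 ⟨n0, b2⟩ b3 b4 b5 U e hU hγ
  let φ : Set ℝ → ℕ := fun V => sInf {m | ee (chi {m}) ∉ V}
  have c1 : ∀ n, g w n = φ (U n) := fun n => by
    simp only [g, φ]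
    rw [← e, app_cFun cNat_inj (mem_univ n)]
    simp only [mem_cSet_iff cReal_inj]
  have c2 : ∀ n, n ≤ g w n ∧ U n = WW w n (g w n) := fun n => by
    obtain ⟨m, -, d1, d2⟩ := hU n
    have : g w n = m := by
      rw [c1, ← d2]
      have : {k | ee (chi {k}) ∉ WW w n m} = {m} := by
        ext k
        exact ((mem_WW (b4 {k})).trans bad_chi.not).not.trans not_not
      simp only [φ, this, csInf_singleton]
    rw [this]
    exact ⟨d1, d2.symm⟩
  obtain ⟨B, hB⟩ := ((hγ.2.2.2 (ee (tb i w)) (by rw [b3]; exact ⟨_, b5, rfl⟩)).image φ).bddAbove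
  obtain ⟨k, d1, ⟨n, rfl⟩, d2⟩ := b1 (fun n => ⟨_, (c2 n).1, n, rfl⟩)
    (B + ∑ n ∈ Finset.range n0, g w n + 1)
  have d3 : n0 ≤ n := by
    by_contra d3
    have := Finset.single_le_sum (f := fun n => g w n) (fun _ _ => Nat.zero_le _)
      (Finset.mem_range.2 (not_le.1 d3))
    omega
  have d4 : bad n (g w n) (tb i w) := by
    refine ⟨d2, fun l e1 e2 => ?_⟩
    by_contra e3
    have e4 := b2 l (d3.trans e1) (by simpa using e3) _ e2 d2
    have := Finset.single_le_sum (f := fun n => g w n) (fun _ _ => Nat.zero_le _)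
      (Finset.mem_range.2 (show n < l + 1 by omega))
    omega
  have d5 : φ (U n) ≤ B := hB ⟨U n, ⟨mem_range_self n, by
    rw [(c2 n).2]
    exact fun h => (mem_WW b5).1 h d4⟩, rfl⟩
  rw [← c1] at d5
  omega

theorem ev_not_S1 : ∀ᶠ w in gen PP, ¬ S1 w.M (⋃₀ FF w) := by
  filter_upwards [ev_all ev_not_name, ev_gamma, named_WC.mem_M] with w h1 h2 h3 h
  obtain ⟨U, ⟨σ, a1, a2⟩, a3, a4⟩ := h _ h3 h2
  exact h1 σ a1 U a2.symm a3 a4

theorem main : ∃ M : Set ZFSet.{0}, TransModelZFC M ∧ ∃ 𝓕 : Set (Set ℝ),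
    cSet (cSet cReal) 𝓕 ∈ M ∧ (∀ X ∈ 𝓕, S1 M X) ∧ ¬ S1 M (⋃₀ 𝓕) ∧
    ∀ E : Set ℝ → ℕ → ℕ, cFun (cSet cReal) (cFun cNat cNat univ) 𝓕 E ∈ M →
      ∃ g : ℕ → ℕ, cFun cNat cNat univ g ∈ M ∧ ∀ X ∈ 𝓕, ∀ᶠ n in atTop, E X n ≤ g n := by
  obtain ⟨w, h1, h2, h3, h4, h5⟩ :=
    (ev_zfc.and (named_FF.mem_M.and (ev_S1.and (ev_not_S1.and ev_b)))).exists
  exact ⟨w.M, h1, FF w, h2, h3, h4, h5⟩

end Pool.Agent.P.MP_6e1b89_gt
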