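import Mathlib

namespace Pool.Agent.P.MP_6e1b89_gt.Z

/-- open gamma-covers of the space `X`: infinite families of relatively open subsets of `X`,
not containing `X`, each point of `X` lying in all but finitely many members -/
def GammaCover (X : Set ℝ) (𝒰 : Set (Set ℝ)) : Prop :=
  (∀ U ∈ 𝒰, ∃ O, IsOpen O ∧ U = X ∩ O) ∧ X ∉ 𝒰 ∧ 𝒰.Infinite ∧ ∀ x ∈ X, {U ∈ 𝒰 | x ∉ U}.Finite

/-- the selection principle `S_1(Gamma, Gamma)` -/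
def S1 (X : Set ℝ) : Prop :=
  ∀ 𝒰 : ℕ → Set (Set ℝ), (∀ n, GammaCover X (𝒰 n)) →
    ∃ U : ℕ → Set ℝ, (∀ n, U n ∈ 𝒰 n) ∧ GammaCover X (Set.range U)

/-- the additivity number of `S_1(Gamma, Gamma)` -/
noncomputable def addNum : Cardinal.{0} :=
  sInf {κ | ∃ 𝓕 : Set (Set ℝ), Cardinal.mk 𝓕 = κ ∧ (∀ X ∈ 𝓕, S1 X) ∧ ¬ S1 (⋃₀ 𝓕)}

/-- the bounding number -/
noncomputable def bNum : Cardinal.{0} :=
  sInf {κ | ∃ F : Set (ℕ → ℕ), Cardinal.mk F = κ ∧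
    ∀ g : ℕ → ℕ, ∃ f ∈ F, ¬ ∀ᶠ n in Filter.atTop, f n ≤ g n}

/-- groupwise dense ideals: closed under almost subsets and finite unions, and containing the
union of infinitely many intervals of every interval partition -/
def GroupwiseDenseIdeal (G : Set (Set ℕ)) : Prop :=
  (∀ A ∈ G, ∀ B : Set ℕ, (B \ A).Finite → B ∈ G) ∧ (∀ A ∈ G, ∀ B ∈ G, A ∪ B ∈ G) ∧
    ∀ p : ℕ → ℕ, StrictMono p →
      ∃ J : Set ℕ, J.Infinite ∧ (⋃ j ∈ J, Set.Ico (p j) (p (j + 1))) ∈ G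

/-- the groupwise density number for ideals -/
noncomputable def gfNum : Cardinal.{0} :=
  sInf {κ | ∃ 𝒢 : Set (Set (Set ℕ)), Cardinal.mk 𝒢 = κ ∧ (∀ G ∈ 𝒢, GroupwiseDenseIdeal G) ∧
    ∀ A : Set ℕ, A.Infinite → ∃ G ∈ 𝒢, A ∉ G}

/-- the splitting number -/
noncomputable def sNum : Cardinal.{0} :=
  sInf {κ | ∃ S : Set (Set ℕ), Cardinal.mk S = κ ∧
    ∀ A : Set ℕ, A.Infinite → ∃ B ∈ S, (A ∩ B).Infinite ∧ (A \ B).Infinite}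

end Pool.Agent.P.MP_6e1b89_gt.Z
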