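import Pool.Agent.P.MP_6e1b89_gt.ZDefs

namespace Pool.Agent.P.MP_6e1b89_gt.Z

open Set Filter Cardinal

theorem gamma_range {X : Set ℝ} {U : ℕ → Set ℝ} (ho : ∀ n, ∃ O, IsOpen O ∧ U n = X ∩ O)
    (hne : ∀ n, U n ≠ X) (hx : ∀ x ∈ X, ∀ᶠ n in atTop, x ∈ U n) : GammaCover X (range U) := by
  have hfin : ∀ x ∈ X, {n | x ∉ U n}.Finite := by
    intro x hxX
    have := hx x hxX
    rw [← Nat.cofinite_eq_atTop, eventually_cofinite] at this
    exact this
  refine ⟨?_, ?_, ?_, ?_⟩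
  · rintro _ ⟨n, rfl⟩
    exact ho n
  · rintro ⟨n, hn⟩
    exact hne n hn
  · intro hf
    have hall : ∀ V ∈ range U, (U ⁻¹' {V}).Finite := by
      rintro _ ⟨n, rfl⟩
      obtain ⟨O, -, hO⟩ := ho n
      have hns : ¬ X ⊆ U n := fun h => hne n (Subset.antisymm (hO ▸ inter_subset_left) h)
      obtain ⟨x, hxX, hxU⟩ := not_subset.1 hns
      refine (hfin x hxX).subset ?_
      intro k hk
      have hk' : U k = U n := hk
      simpa [hk'] using hxU
    have : (univ : Set ℕ).Finite := by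
      refine (hf.biUnion hall).subset ?_
      intro k _
      exact mem_biUnion (mem_range_self k) rfl
    exact infinite_univ this
  · intro x hxX
    refine ((hfin x hxX).image U).subset ?_
    rintro _ ⟨⟨n, rfl⟩, hn⟩
    exact ⟨n, hn, rfl⟩

theorem gamma_enum {X : Set ℝ} {𝒰 : Set (Set ℝ)} (h : GammaCover X 𝒰) :
    ∃ u : ℕ → Set ℝ, (∀ m, u m ∈ 𝒰) ∧ Function.Injective u ∧ ∀ x ∈ X, ∀ᶠ m in atTop, x ∈ u m := by
  obtain ⟨-, -, hinf, hfin⟩ := h
  let e := hinf.natEmbedding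
  have hinj : Function.Injective fun m => (e m : Set ℝ) :=
    fun a b hab => e.injective (Subtype.ext hab)
  refine ⟨fun m => e m, fun m => (e m).2, hinj, ?_⟩
  intro x hxX
  rw [← Nat.cofinite_eq_atTop, eventually_cofinite]
  refine ((hfin x hxX).preimage hinj.injOn).subset ?_
  intro m hm
  exact ⟨(e m).2, hm⟩

theorem sel {X : Set ℝ} (hX : S1 X) (V : ℕ → ℕ → Set ℝ) (ho : ∀ k j, IsOpen (V k j))
    (hanti : ∀ k k' j, k ≤ k' → V k' j ⊆ V k j)
    (hx : ∀ k, ∀ x ∈ X, ∀ᶠ j in atTop, x ∈ V k j) :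
    ∃ j : ℕ → ℕ, (∀ i, i ≤ j i) ∧ ∀ x ∈ X, ∀ᶠ i in atTop, x ∈ V i (j i) := by
  by_cases hc : ∀ k, ∀ c, ∃ j, c ≤ j ∧ X ⊆ V k j
  · choose j hj using hc
    exact ⟨fun i => j i i, fun i => (hj i i).1,
      fun x hxX => Eventually.of_forall fun i => (hj i i).2 hxX⟩
  push Not at hc
  obtain ⟨k0, j0, h0⟩ := hc
  have hg : ∀ k, GammaCover X (range fun j => X ∩ V (k + k0) (j + (k + j0))) := by
    intro k
    refine gamma_range (fun j => ⟨_, ho _ _, rfl⟩) ?_ ?_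
    · intro j hj
      refine h0 (j + (k + j0)) (by omega) ?_
      intro x hxX
      have : x ∈ X ∩ V (k + k0) (j + (k + j0)) := by rw [hj]; exact hxX
      exact hanti k0 (k + k0) _ (by omega) this.2
    · intro x hxX
      have := (tendsto_add_atTop_nat (k + j0)).eventually (hx (k + k0) x hxX)
      exact this.mono fun j hj => ⟨hxX, hj⟩
  obtain ⟨U, hU, hG⟩ := hX _ hg
  choose j hj using hU
  obtain ⟨u, hu, hinj, hux⟩ := gamma_enum hG
  choose κ hκ using hu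
  have hκinj : Function.Injective κ := by
    intro a b hab
    apply hinj
    rw [← hκ a, ← hκ b, hab]
  have ht : Tendsto κ atTop atTop := hκinj.nat_tendsto_atTop
  have hψ : ∀ i, ∃ i', i ≤ i' ∧ i ≤ κ i' := by
    intro i
    exact ((eventually_ge_atTop i).and (ht.eventually (eventually_ge_atTop i))).exists
  choose ψ hψ using hψ
  refine ⟨fun i => j (κ (ψ i)) + (κ (ψ i) + j0), fun i => by have := (hψ i).2; beta_reduce; omega, ?_⟩
  intro x hxX
  have htψ : Tendsto ψ atTop atTop := tendsto_atTop_mono (fun i => (hψ i).1) tendsto_id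
  refine (htψ.eventually (hux x hxX)).mono fun i hi => ?_
  rw [← hκ, ← hj] at hi
  exact hanti i _ _ (by have := (hψ i).2; omega) hi.2

/-- the bad columns of a point -/
def N (O : ℕ → ℕ → Set ℝ) (x : ℝ) (f : ℕ → ℕ) : Set ℕ := {m | ∃ n, f n ≤ m ∧ x ∉ O n m}

theorem bounded_of_lt {ι : Type} (h : #ι < bNum) (f : ι → ℕ → ℕ) :
    ∃ g : ℕ → ℕ, ∀ i, ∀ᶠ n in atTop, f i n ≤ g n := by
  by_contra hc
  push Not at hc
  have : bNum ≤ #(range f) := by
    apply csInf_le'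
    refine ⟨range f, rfl, fun g => ?_⟩
    obtain ⟨i, hi⟩ := hc g
    refine ⟨f i, mem_range_self i, ?_⟩
    intro h'
    obtain ⟨n, h1, h2⟩ := (hi.and_eventually h').exists
    omega
  exact absurd (this.trans mk_range_le) (not_le.2 h)

theorem finish {ι : Type} (h : #ι < bNum) (X : ι → Set ℝ) (O : ℕ → ℕ → Set ℝ) {A : Set ℕ}
    (hA : A.Infinite) (hf : ∀ i, ∃ f, ∀ x ∈ X i, (A ∩ N O x f).Finite) :
    ∃ m : ℕ → ℕ, ∀ i, ∀ x ∈ X i, ∀ᶠ n in atTop, x ∈ O n (m n) := by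
  choose f hf using hf
  obtain ⟨g, hg⟩ := bounded_of_lt h f
  choose m hm using fun n => hA.exists_gt (g n + n)
  refine ⟨m, fun i x hx => ?_⟩
  obtain ⟨c, hc⟩ := (hf i x hx).bddAbove
  filter_upwards [hg i, eventually_ge_atTop c] with n h1 h2
  by_contra hno
  have := hc (show m n ∈ A ∩ N O x (f i) from ⟨(hm n).1, n, by have := (hm n).2; omega, hno⟩)
  have := (hm n).2
  omega

theorem s1_of {Y : Set ℝ}
    (h : ∀ O : ℕ → ℕ → Set ℝ, (∀ n m, IsOpen (O n m)) →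
      (∀ n, ∀ x ∈ Y, ∀ᶠ m in atTop, x ∈ O n m) →
      ∃ m : ℕ → ℕ, ∀ x ∈ Y, ∀ᶠ n in atTop, x ∈ O n (m n)) : S1 Y := by
  intro 𝒰 h𝒰
  choose u hu _ hux using fun n => gamma_enum (h𝒰 n)
  choose O hO hOe using fun n m => (h𝒰 n).1 _ (hu n m)
  obtain ⟨m, hm⟩ := h O hO (fun n x hx => (hux n x hx).mono fun m hm => by
    rw [hOe] at hm; exact hm.2)
  refine ⟨fun n => u n (m n), fun n => hu n _, gamma_range (fun n => ⟨_, hO _ _, hOe _ _⟩) ?_ ?_⟩
  · intro n hn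
    exact (h𝒰 n).2.1 (hn ▸ hu n (m n))
  · intro x hx
    exact (hm x hx).mono fun n hn => by rw [hOe]; exact ⟨hx, hn⟩

theorem gdi {X : Set ℝ} (hX : S1 X) (O : ℕ → ℕ → Set ℝ) (hO : ∀ n m, IsOpen (O n m))
    (hx : ∀ n, ∀ x ∈ X, ∀ᶠ m in atTop, x ∈ O n m) :
    GroupwiseDenseIdeal {A | ∃ f, ∀ x ∈ X, (A ∩ N O x f).Finite} := by
  refine ⟨?_, ?_, ?_⟩
  · rintro A ⟨f, hf⟩ B hB
    refine ⟨f, fun x hxX => ((hf x hxX).union hB).subset ?_⟩
    intro m hm
    by_cases hmA : m ∈ A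
    · exact Or.inl ⟨hmA, hm.2⟩
    · exact Or.inr ⟨hm.1, hmA⟩
  · rintro A ⟨f, hf⟩ B ⟨g, hg⟩
    refine ⟨fun n => f n + g n, fun x hxX => ((hf x hxX).union (hg x hxX)).subset ?_⟩
    rintro m ⟨hm | hm, n, h1, h2⟩
    · exact Or.inl ⟨hm, n, le_trans (Nat.le_add_right _ _) h1, h2⟩
    · exact Or.inr ⟨hm, n, le_trans (Nat.le_add_left _ _) h1, h2⟩
  · intro p hp
    obtain ⟨j, hj, hjx⟩ := sel hX
      (fun k j => ⋂ n ∈ Iic k, ⋂ m ∈ Ico (p j) (p (j + 1)), O n m)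
      (fun k j => (finite_Iic k).isOpen_biInter fun n _ =>
        (finite_Ico _ _).isOpen_biInter fun m _ => hO n m)
      (fun k k' j hk => biInter_subset_biInter_left (Iic_subset_Iic.2 hk))
      (by
        intro k x hxX
        have h1 : ∀ᶠ m in atTop, ∀ n ∈ Iic k, x ∈ O n m :=
          (eventually_all_finite (finite_Iic k)).2 fun n _ => hx n x hxX
        obtain ⟨c, hc⟩ := eventually_atTop.1 h1
        filter_upwards [eventually_ge_atTop c] with j hj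
        simp only [mem_iInter]
        intro n hn m hm
        exact hc m (le_trans (le_trans hj (hp.id_le j)) hm.1) n hn)
    refine ⟨range j, ?_, fun n => (Finset.range n).sup fun i => p (j i + 1), ?_⟩
    · refine infinite_of_forall_exists_gt fun c => ⟨j (c + 1), mem_range_self _, ?_⟩
      have := hj (c + 1)
      omega
    · intro x hxX
      obtain ⟨c, hc⟩ := eventually_atTop.1 (hjx x hxX)
      refine ((finite_Iio c).biUnion fun i _ => finite_Ico (p (j i)) (p (j i + 1))).subset ?_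
      rintro m ⟨hm, n, h1, h2⟩
      simp only [mem_iUnion] at hm
      obtain ⟨_, ⟨i, rfl⟩, hm⟩ := hm
      refine mem_biUnion (show i ∈ Iio c from ?_) hm
      by_contra hic
      have hi := hc i (not_lt.1 hic)
      simp only [mem_iInter] at hi
      refine h2 (hi n ?_ m hm)
      by_contra hni
      have h3 : p (j i + 1) ≤ (Finset.range n).sup fun i => p (j i + 1) :=
        Finset.le_sup (f := fun i => p (j i + 1)) (Finset.mem_range.2 (not_le.1 hni))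
      have h4 := hm.2
      beta_reduce at h1
      omega

theorem groupwise (𝓕 : Set (Set ℝ)) (hb : #𝓕 < bNum) (hg : #𝓕 < gfNum)
    (h : ∀ X ∈ 𝓕, S1 X) : S1 (⋃₀ 𝓕) := by
  refine s1_of fun O hO hx => ?_
  let D : 𝓕 → Set (Set ℕ) := fun X => {A | ∃ f, ∀ x ∈ (X : Set ℝ), (A ∩ N O x f).Finite}
  have hD : ∀ X : 𝓕, GroupwiseDenseIdeal (D X) :=
    fun X => gdi (h X X.2) O hO fun n x hxX => hx n x ⟨X, X.2, hxX⟩
  have hA : ∃ A : Set ℕ, A.Infinite ∧ ∀ X : 𝓕, A ∈ D X := by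
    by_contra hc
    push Not at hc
    have : gfNum ≤ #(range D) := by
      apply csInf_le'
      refine ⟨range D, rfl, ?_, fun A hA => ?_⟩
      · rintro _ ⟨X, rfl⟩
        exact hD X
      · obtain ⟨X, hX⟩ := hc A hA
        exact ⟨D X, mem_range_self X, hX⟩
    exact absurd (this.trans mk_range_le) (not_le.2 hg)
  obtain ⟨A, hA, hAD⟩ := hA
  obtain ⟨m, hm⟩ := finish hb (fun X : 𝓕 => (X : Set ℝ)) O hA hAD
  exact ⟨m, fun x ⟨X, hX, hxX⟩ => hm ⟨X, hX⟩ x hxX⟩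

theorem exists_unbounded : ∃ F : Set (ℕ → ℕ), #F = bNum ∧
    ∀ g : ℕ → ℕ, ∃ f ∈ F, ¬ ∀ᶠ n in atTop, f n ≤ g n := by
  apply csInf_mem (s := {κ | ∃ F : Set (ℕ → ℕ), #F = κ ∧
    ∀ g : ℕ → ℕ, ∃ f ∈ F, ¬ ∀ᶠ n in atTop, f n ≤ g n})
  refine ⟨_, univ, rfl, fun g => ⟨fun n => g n + 1, trivial, fun h => ?_⟩⟩
  obtain ⟨n, hn⟩ := h.exists
  exact absurd hn (Nat.not_succ_le_self _)

theorem aleph0_le_b : ℵ₀ ≤ bNum := by
  obtain ⟨F, hF, hu⟩ := exists_unbounded
  by_contra hc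
  have hfin : F.Finite := by
    rw [← lt_aleph0_iff_set_finite, hF]
    exact not_le.1 hc
  obtain ⟨f, hf, hn⟩ := hu fun n => hfin.toFinset.sup fun f => f n
  exact hn (Eventually.of_forall fun n =>
    Finset.le_sup (f := fun f : ℕ → ℕ => f n) (hfin.mem_toFinset.2 hf))

theorem splitting (𝓕 : Set (Set ℝ)) (hb : #𝓕 < bNum) (hs : #(⋃₀ 𝓕) < sNum)
    (h : ∀ X ∈ 𝓕, S1 X) : S1 (⋃₀ 𝓕) := by
  refine s1_of fun O hO hx => ?_
  by_cases hY : #(⋃₀ 𝓕) < bNum
  · obtain ⟨m, hm⟩ := finish hY (fun y : (⋃₀ 𝓕) => {(y : ℝ)}) O infinite_univ (by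
      intro y
      choose f hf using fun n => eventually_atTop.1 (hx n y y.2)
      refine ⟨f, fun x hxy => finite_empty.subset ?_⟩
      rintro m ⟨-, n, h1, h2⟩
      rw [mem_singleton_iff.1 hxy] at h2
      exact h2 (hf n m h1))
    exact ⟨m, fun x hxY => hm ⟨x, hxY⟩ x rfl⟩
  have hbY := not_lt.1 hY
  obtain ⟨F, hF, hu⟩ := exists_unbounded
  let up : (ℕ → ℕ) → ℕ → ℕ := fun f n => (Finset.range (n + 1)).sup f
  have hup : ∀ f n, f n ≤ up f n := fun f n => Finset.le_sup (Finset.self_mem_range_succ n)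
  have hmono : ∀ f, Monotone (up f) :=
    fun f a b hab => Finset.sup_mono (Finset.range_subset_range.2 (by omega))
  let S : (⋃₀ 𝓕) × F → Set ℕ := fun q => N O q.1 (up q.2)
  have hA : ∃ A : Set ℕ, A.Infinite ∧ ∀ q, (A \ S q).Infinite → (A ∩ S q).Finite := by
    by_contra hc
    push Not at hc
    have h1 : sNum ≤ #(range S) := by
      apply csInf_le'
      refine ⟨range S, rfl, fun A hA => ?_⟩
      obtain ⟨q, hq1, hq2⟩ := hc A hA
      exact ⟨S q, mem_range_self q, hq2, hq1⟩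
    have h2 : #((⋃₀ 𝓕) × F) ≤ #(⋃₀ 𝓕) := by
      rw [mk_prod, lift_id, lift_id, hF]
      exact (mul_le_mul_right hbY _).trans (mul_eq_self (aleph0_le_b.trans hbY)).le
    exact absurd ((h1.trans mk_range_le).trans h2) (not_le.2 hs)
  obtain ⟨A, hA, hAS⟩ := hA
  choose a ha using fun j => hA.exists_gt j
  have key : ∀ X : 𝓕, ∃ f, ∀ x ∈ (X : Set ℝ), (A ∩ N O x f).Finite := by
    intro X
    obtain ⟨j, hj, hjx⟩ := sel (h X X.2) (fun k j => ⋂ n ∈ Iic k, O n (a j))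
      (fun k j => (finite_Iic k).isOpen_biInter fun n _ => hO n _)
      (fun k k' j hk => biInter_subset_biInter_left (Iic_subset_Iic.2 hk))
      (by
        intro k x hxX
        have h1 : ∀ᶠ m in atTop, ∀ n ∈ Iic k, x ∈ O n m :=
          (eventually_all_finite (finite_Iic k)).2 fun n _ => hx n x ⟨X, X.2, hxX⟩
        obtain ⟨c, hc⟩ := eventually_atTop.1 h1
        filter_upwards [eventually_ge_atTop c] with j hj
        simp only [mem_iInter]
        intro n hn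
        exact hc _ (le_trans hj (ha j).2.le) n hn)
    obtain ⟨f, hf, hfu⟩ := hu fun i => a (j i)
    refine ⟨up f, fun x hxX => hAS (⟨x, X, X.2, hxX⟩, ⟨f, hf⟩) ?_⟩
    refine infinite_of_forall_exists_gt fun c => ?_
    rw [not_eventually] at hfu
    obtain ⟨i, h1, h2, h3⟩ :=
      (hfu.and_eventually ((hjx x hxX).and (eventually_ge_atTop c))).exists
    refine ⟨a (j i), ⟨(ha _).1, ?_⟩, by have := (ha (j i)).2; have := hj i; omega⟩
    rintro ⟨n, h4, h5⟩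
    simp only [mem_iInter] at h2
    refine h5 (h2 n ?_)
    by_contra hni
    have h6 := hmono f (not_le.1 hni).le
    have h7 := hup f i
    have h8 : up f n ≤ a (j i) := h4
    omega
  obtain ⟨m, hm⟩ := finish hb (fun X : 𝓕 => (X : Set ℝ)) O hA key
  exact ⟨m, fun x ⟨X, hX, hxX⟩ => hm ⟨X, hX⟩ x hxX⟩

end Pool.Agent.P.MP_6e1b89_gt.Z
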