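import Pool.Agent.P.MP_6e1b89_gt.ZMain

namespace Pool.Agent.P.MP_6e1b89_gt.Z

open Set Filter Cardinal

theorem dense_aux (n : ℕ) {c : ℝ} (h0 : 0 < c) (h1 : c < 1) (x : ℝ) :
    ∃ y, |y - x| ≤ 1 / ((n : ℝ) + 1) ∧ Real.cos (2 * Real.pi * ((n + 1) * y)) = c := by
  have hp := Real.pi_pos
  have hn : (0 : ℝ) < n + 1 := by positivity
  set t := Real.arccos c / (2 * Real.pi) with ht
  refine ⟨(t + ⌊(n + 1) * x - t⌋) / (n + 1), ?_, ?_⟩
  · have e : (t + ⌊(n + 1) * x - t⌋) / (n + 1) - x
        = (t + ⌊(n + 1) * x - t⌋ - (n + 1) * x) / (n + 1) := by field_simp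
    rw [e, abs_div, abs_of_pos hn]
    refine div_le_div_of_nonneg_right ?_ hn.le
    have a1 := Int.floor_le ((n + 1) * x - t)
    have a2 := Int.lt_floor_add_one ((n + 1) * x - t)
    rw [abs_le]
    constructor <;> linarith
  · have e : 2 * Real.pi * ((n + 1) * ((t + ⌊(n + 1) * x - t⌋) / (n + 1)))
        = Real.arccos c + (⌊(n + 1) * x - t⌋ : ℤ) * (2 * Real.pi) := by
      rw [ht]; field_simp
    rw [e, Real.cos_add_int_mul_two_pi, Real.cos_arccos (by linarith) h1.le]

theorem not_s1_univ : ¬ S1 univ := by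
  intro h
  let φ : ℕ → ℝ → ℝ := fun n x => Real.cos (2 * Real.pi * ((n + 1) * x))
  have hφ : ∀ n, Continuous (φ n) := fun n => by fun_prop
  let lo : ℕ → ℝ := fun m => 1 / (2 * (m : ℝ) + 4)
  let hi : ℕ → ℝ := fun m => 1 / (2 * (m : ℝ) + 2)
  let mid : ℕ → ℝ := fun m => 1 / (2 * (m : ℝ) + 3)
  have hlm : ∀ m, lo m < mid m := fun m =>
    one_div_lt_one_div_of_lt (by positivity) (by linarith)
  have hmh : ∀ m, mid m < hi m := fun m =>
    one_div_lt_one_div_of_lt (by positivity) (by linarith)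
  have hm0 : ∀ m, 0 < mid m := fun m => by positivity
  have hm1 : ∀ m, mid m < 1 := fun m => by
    have : (0 : ℝ) ≤ m := Nat.cast_nonneg m
    exact (div_lt_one (by positivity)).2 (by linarith)
  obtain ⟨j, -, hj⟩ := sel h (fun k j => ⋂ n ∈ Iic k, φ n ⁻¹' (Icc (lo j) (hi j))ᶜ)
    (fun k j => (finite_Iic k).isOpen_biInter fun n _ =>
      isClosed_Icc.isOpen_compl.preimage (hφ n))
    (fun k k' j hk => biInter_subset_biInter_left (Iic_subset_Iic.2 hk))
    (by
      intro k x _
      have h1 : ∀ n, ∀ᶠ j in atTop, φ n x ∉ Icc (lo j) (hi j) := by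
        intro n
        by_cases hpos : 0 < φ n x
        · obtain ⟨c, hc⟩ := exists_nat_one_div_lt hpos
          filter_upwards [eventually_ge_atTop c] with j hj hmem
          have hj' : (c : ℝ) ≤ j := by exact_mod_cast hj
          have h0 : (0 : ℝ) ≤ c := Nat.cast_nonneg c
          have : hi j ≤ 1 / ((c : ℝ) + 1) :=
            one_div_le_one_div_of_le (by positivity) (by linarith)
          linarith [hmem.2]
        · refine Eventually.of_forall fun j hmem => hpos (lt_of_lt_of_le ?_ hmem.1)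
          positivity
      filter_upwards [(eventually_all_finite (finite_Iic k)).2 fun n _ => h1 n] with j hj
      simp only [mem_iInter]
      exact hj)
  let G : ℕ → Set ℝ := fun c => ⋃ i ∈ Ici c, φ i ⁻¹' Ioo (lo (j i)) (hi (j i))
  have hGo : ∀ c, IsOpen (G c) :=
    fun c => isOpen_biUnion fun i _ => isOpen_Ioo.preimage (hφ i)
  have hGd : ∀ c, Dense (G c) := by
    intro c
    rw [Metric.dense_iff]
    intro x r hr
    obtain ⟨d, hd⟩ := exists_nat_one_div_lt hr
    obtain ⟨y, hy1, hy2⟩ := dense_aux (c + d) (hm0 (j (c + d))) (hm1 (j (c + d))) x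
    refine ⟨y, ?_, mem_biUnion (show c + d ∈ Ici c from Nat.le_add_right c d) ?_⟩
    · rw [Metric.mem_ball, Real.dist_eq]
      refine lt_of_le_of_lt (hy1.trans ?_) hd
      refine one_div_le_one_div_of_le (by positivity) ?_
      push_cast
      have : (0 : ℝ) ≤ c := Nat.cast_nonneg c
      linarith
    · show φ (c + d) y ∈ Ioo _ _
      have : φ (c + d) y = mid (j (c + d)) := hy2
      rw [this]
      exact ⟨hlm _, hmh _⟩
  obtain ⟨x, hx⟩ := (dense_iInter_of_isOpen hGo hGd).nonempty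
  obtain ⟨c, hc⟩ := eventually_atTop.1 (hj x trivial)
  have hxc := mem_iInter.1 hx c
  simp only [G, mem_iUnion] at hxc
  obtain ⟨i, hi1, hi2⟩ := hxc
  have := hc i hi1
  simp only [mem_iInter] at this
  exact this i (le_refl i) (Ioo_subset_Icc_self hi2)

theorem s1_singleton (x : ℝ) : S1 {x} := by
  refine s1_of fun O _ hx => ?_
  choose f hf using fun n => eventually_atTop.1 (hx n x rfl)
  refine ⟨f, fun y hy => Eventually.of_forall fun n => ?_⟩
  rw [mem_singleton_iff.1 hy]
  exact hf n _ le_rfl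

theorem min_le_add : min bNum gfNum ≤ addNum := by
  apply le_csInf
  · refine ⟨_, range fun x : ℝ => {x}, rfl, ?_, ?_⟩
    · rintro _ ⟨x, rfl⟩
      exact s1_singleton x
    · rw [sUnion_range, iUnion_of_singleton]
      exact not_s1_univ
  · rintro κ ⟨𝓕, rfl, h1, h2⟩
    by_contra hc
    rw [not_le, lt_min_iff] at hc
    exact h2 (groupwise 𝓕 hc.1 hc.2 h1)

end Pool.Agent.P.MP_6e1b89_gt.Z
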